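import Pool.Agent.H61.AZ.Tree

set_option autoImplicit false
set_option linter.unusedSectionVars false

/-! The tree of an amalgamated product. -/

namespace Pool.Agent.H61.AZ

universe u v w

section
variable {P : Type u} [Group P] {ι : Type v} (S : ι → Subgroup P) (B : Subgroup P)
  (hB : ∀ i, B ≤ S i)

/-- reduced sequences -/
def Red (l : List (ι × P)) : Prop :=
  (∀ x ∈ l, x.2 ∈ S x.1 ∧ x.2 ∉ B) ∧ l.IsChain (fun a b => a.1 ≠ b.1)

/-- `P` is the product of the subgroups `S i` amalgamated over the common subgroup `B`. -/
structure IsAmalgam : Prop where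
  le : ∀ i, B ≤ S i
  gen : ⨆ i, S i = ⊤
  red : ∀ l : List (ι × P), Red S B l → (l.map Prod.snd).prod ∈ B → l = []

/-- the vertices -/
abbrev Vert : Type _ := (Σ i, P ⧸ S i) ⊕ (P ⧸ B)

variable {S B}

/-- adjacency -/
def adjRel (hB : ∀ i, B ≤ S i) : Vert S B → Vert S B → Prop
  | Sum.inl a, Sum.inr b => Subgroup.quotientMapOfLE (hB a.1) b = a.2
  | Sum.inr b, Sum.inl a => Subgroup.quotientMapOfLE (hB a.1) b = a.2
  | _, _ => False

/-- the coset graph -/
def cosetGraph (hB : ∀ i, B ≤ S i) : SimpleGraph (Vert S B) where
  Adj := adjRel hB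
  symm := ⟨by
    rintro (a | a) (b | b) h
    · exact h
    · exact h
    · exact h
    · exact h⟩
  loopless := ⟨by
    rintro (a | a) h
    · exact h
    · exact h⟩

theorem adj_inl_inr (i : ι) (a : P ⧸ S i) (b : P ⧸ B) :
    (cosetGraph hB).Adj (Sum.inl ⟨i, a⟩) (Sum.inr b) ↔ Subgroup.quotientMapOfLE (hB i) b = a :=
  Iff.rfl

theorem adj_inr_inl (i : ι) (a : P ⧸ S i) (b : P ⧸ B) :
    (cosetGraph hB).Adj (Sum.inr b) (Sum.inl ⟨i, a⟩) ↔ Subgroup.quotientMapOfLE (hB i) b = a :=
  Iff.rfl

theorem not_adj_inl_inl (a b : Σ i, P ⧸ S i) :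
    ¬ (cosetGraph (B := B) hB).Adj (Sum.inl a) (Sum.inl b) := fun h => h

theorem not_adj_inr_inr (a b : P ⧸ B) :
    ¬ (cosetGraph hB).Adj (Sum.inr a) (Sum.inr b) := fun h => h

theorem adj_mk (i : ι) (g : P) :
    (cosetGraph hB).Adj (Sum.inr (g : P ⧸ B)) (Sum.inl ⟨i, (g : P ⧸ S i)⟩) := by
  rw [adj_inr_inl]; rfl

theorem adj_smul (g : P) (x y : Vert S B) (h : (cosetGraph hB).Adj x y) :
    (cosetGraph hB).Adj (g • x) (g • y) := by
  rcases x with ⟨i, a⟩ | a <;> rcases y with ⟨j, b⟩ | b
  · exact absurd h (not_adj_inl_inl hB _ _)
  · rw [adj_inl_inr] at h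
    subst h
    induction b using QuotientGroup.induction_on with
    | H b => exact (adj_mk hB i (g * b)).symm
  · rw [adj_inr_inl] at h
    subst h
    induction a using QuotientGroup.induction_on with
    | H a => exact adj_mk hB j (g * a)
  · exact absurd h (not_adj_inr_inr hB _ _)

theorem no_inv (g : P) (x y : Vert S B) (h : (cosetGraph hB).Adj x y) (h1 : g • x = y) :
    g • y ≠ x := by
  intro _
  rcases x with ⟨i, a⟩ | a <;> rcases y with ⟨j, b⟩ | b
  · exact absurd h (not_adj_inl_inl hB _ _)
  · cases h1
  · cases h1
  · exact absurd h (not_adj_inr_inr hB _ _)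

end

section
variable {P : Type u} [Group P] {ι : Type v} {S : ι → Subgroup P} {B : Subgroup P}
  (h : IsAmalgam S B)

include h

theorem reach_mul (g : P) : ∀ x : P, (cosetGraph h.le).Reachable
    (Sum.inr (x : P ⧸ B)) (Sum.inr ((x * g : P) : P ⧸ B)) := by
  have hg : g ∈ ⨆ i, S i := by rw [h.gen]; trivial
  induction hg using Subgroup.iSup_induction' with
  | hp i s hs =>
    intro x
    have h1 := adj_mk h.le i x
    have h2 := adj_mk h.le i (x * s)
    have h3 : ((x * s : P) : P ⧸ S i) = (x : P ⧸ S i) := by
      rw [QuotientGroup.eq]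
      simpa using hs
    rw [h3] at h2
    exact h1.reachable.trans h2.symm.reachable
  | h1 => intro x; rw [mul_one]
  | hmul s t _ _ ih1 ih2 =>
    intro x
    rw [← mul_assoc]
    exact (ih1 x).trans (ih2 (x * s))

theorem connected : (cosetGraph h.le).Connected := by
  have h1 : ∀ v : Vert S B, (cosetGraph h.le).Reachable (Sum.inr ((1 : P) : P ⧸ B)) v := by
    rintro (⟨i, a⟩ | a)
    · induction a using QuotientGroup.induction_on with
      | H a =>
        have h2 := reach_mul h a 1
        rw [one_mul] at h2
        exact h2.trans (adj_mk h.le i a).reachable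
    · induction a using QuotientGroup.induction_on with
      | H a =>
        have h2 := reach_mul h a 1
        rwa [one_mul] at h2
  exact { preconnected := fun a b => (h1 a).symm.trans (h1 b), nonempty := ⟨Sum.inr ((1 : P) : P ⧸ B)⟩ }

omit h in
/-- Paths between vertices of the second kind give reduced sequences. -/
theorem path_red (hB : ∀ i, B ≤ S i) : ∀ (n : ℕ) (u v : Vert S B)
    (p : (cosetGraph hB).Walk u v), p.length ≤ n → p.IsPath → ∀ a b : P,
    u = Sum.inr (a : P ⧸ B) → v = Sum.inr (b : P ⧸ B) →
    ∃ l : List (ι × P), Red S B l ∧ b⁻¹ * (a * (l.map Prod.snd).prod) ∈ B ∧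
      ∀ x ∈ l.head?, Sum.inl ⟨x.1, (a : P ⧸ S x.1)⟩ ∈ p.support := by
  intro n
  induction n with
  | zero =>
    intro u v p hn hp a b hu hv
    have h0 : p.length = 0 := by omega
    have h1 := p.eq_of_length_eq_zero h0
    refine ⟨[], ⟨by simp, by simp⟩, ?_, by simp⟩
    subst hu
    rw [hv] at h1
    have h2 : (a : P ⧸ B) = (b : P ⧸ B) := Sum.inr_injective h1
    rw [List.map_nil, List.prod_nil, mul_one]
    exact QuotientGroup.eq.1 h2.symm
  | succ n ih =>
    intro u v p hn hp a b hu hv
    cases p with
    | nil =>
      refine ⟨[], ⟨by simp, by simp⟩, ?_, by simp⟩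
      rw [hu] at hv
      have h2 : (a : P ⧸ B) = (b : P ⧸ B) := Sum.inr_injective hv
      rw [List.map_nil, List.prod_nil, mul_one]
      exact QuotientGroup.eq.1 h2.symm
    | @cons _ w _ huw p1 =>
      subst hu
      rcases w with ⟨i, c⟩ | c
      swap
      · exact absurd huw (not_adj_inr_inr hB _ _)
      rw [adj_inr_inl] at huw
      have hc : c = (a : P ⧸ S i) := huw.symm
      subst hc
      rw [SimpleGraph.Walk.cons_isPath_iff] at hp
      cases p1 with
      | nil => cases hv
      | @cons _ w2 _ hw2 p2 =>
        rcases w2 with w2 | d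
        · exact absurd hw2 (not_adj_inl_inl hB _ _)
        rw [adj_inl_inr] at hw2
        induction d using QuotientGroup.induction_on with
        | H d =>
          have hd : (d : P ⧸ S i) = (a : P ⧸ S i) := hw2
          set s := a⁻¹ * d with hs
          have hsS : s ∈ S i := QuotientGroup.eq.1 hd.symm
          have hds : d = a * s := by rw [hs]; group
          obtain ⟨hp1, hp2⟩ := hp
          rw [SimpleGraph.Walk.cons_isPath_iff] at hp1
          obtain ⟨hp3, hp4⟩ := hp1
          have hlen : p2.length ≤ n := by
            rw [SimpleGraph.Walk.length_cons, SimpleGraph.Walk.length_cons] at hn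
            omega
          obtain ⟨l, hl1, hl2, hl3⟩ := ih _ _ p2 hlen hp3 d b rfl hv
          have hsB : s ∉ B := by
            intro hsB
            apply hp2
            rw [SimpleGraph.Walk.support_cons, List.mem_cons]
            right
            have h5 : (a : P ⧸ B) = (d : P ⧸ B) := QuotientGroup.eq.2 hsB
            have h6 : (Sum.inr (a : P ⧸ B) : Vert S B) = Sum.inr (d : P ⧸ B) := by rw [h5]
            rw [h6]
            exact p2.start_mem_support
          refine ⟨(i, s) :: l, ⟨?_, ?_⟩, ?_, ?_⟩
          · intro x hx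
            rcases List.mem_cons.1 hx with rfl | hx
            · exact ⟨hsS, hsB⟩
            · exact hl1.1 x hx
          · rw [List.isChain_cons]
            refine ⟨?_, hl1.2⟩
            intro y hy hne
            apply hp4
            have h5 := hl3 y hy
            have h6 : (Sum.inl ⟨y.1, (d : P ⧸ S y.1)⟩ : Vert S B)
                = Sum.inl ⟨i, (a : P ⧸ S i)⟩ := by
              change i = y.1 at hne
              subst hne
              rw [hd]
            rw [h6] at h5
            exact h5
          · rw [List.map_cons, List.prod_cons]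
            change b⁻¹ * (a * (s * (l.map Prod.snd).prod)) ∈ B
            rw [← mul_assoc a, ← hds]
            exact hl2
          · intro x hx
            simp only [List.head?_cons, Option.mem_def, Option.some.injEq] at hx
            subst hx
            rw [SimpleGraph.Walk.support_cons, List.mem_cons]
            right
            exact SimpleGraph.Walk.start_mem_support _

theorem no_cycle_inr (a : P) (c : (cosetGraph h.le).Walk (Sum.inr (a : P ⧸ B))
    (Sum.inr (a : P ⧸ B))) : ¬ c.IsCycle := by
  intro hc
  cases c with
  | nil => simp at hc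
  | @cons _ w _ huw p1 =>
    rw [SimpleGraph.Walk.cons_isCycle_iff] at hc
    obtain ⟨hp, he⟩ := hc
    rcases w with ⟨i, c⟩ | c
    swap
    · exact absurd huw (not_adj_inr_inr h.le _ _)
    rw [adj_inr_inl] at huw
    have hc : c = (a : P ⧸ S i) := huw.symm
    subst hc
    cases p1 with
    | @cons _ w2 _ hw2 p2 =>
      rcases w2 with w2 | d
      · exact absurd hw2 (not_adj_inl_inl h.le _ _)
      have hw2' := hw2
      rw [adj_inl_inr] at hw2
      induction d using QuotientGroup.induction_on with
      | H d =>
        have hd : (d : P ⧸ S i) = (a : P ⧸ S i) := hw2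
        set s := a⁻¹ * d with hs
        have hsS : s ∈ S i := QuotientGroup.eq.1 hd.symm
        have hds : d = a * s := by rw [hs]; group
        rw [SimpleGraph.Walk.cons_isPath_iff] at hp
        obtain ⟨hp3, hp4⟩ := hp
        obtain ⟨l, hl1, hl2, hl3⟩ := path_red h.le _ _ _ p2 le_rfl hp3 d a rfl rfl
        have hsB : s ∉ B := by
          intro hsB
          apply he
          have h5 : (a : P ⧸ B) = (d : P ⧸ B) := QuotientGroup.eq.2 hsB
          rw [SimpleGraph.Walk.edges_cons, List.mem_cons]
          left
          rw [Sym2.eq_swap, h5]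
        have hred : Red S B ((i, s) :: l) := by
          refine ⟨?_, ?_⟩
          · intro x hx
            rcases List.mem_cons.1 hx with rfl | hx
            · exact ⟨hsS, hsB⟩
            · exact hl1.1 x hx
          · rw [List.isChain_cons]
            refine ⟨?_, hl1.2⟩
            intro y hy hne
            apply hp4
            have h5 := hl3 y hy
            have h6 : (Sum.inl ⟨y.1, (d : P ⧸ S y.1)⟩ : Vert S B)
                = Sum.inl ⟨i, (a : P ⧸ S i)⟩ := by
              change i = y.1 at hne
              subst hne
              rw [hd]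
            rw [h6] at h5
            exact h5
        have hprod : (((i, s) :: l).map Prod.snd).prod ∈ B := by
          rw [List.map_cons, List.prod_cons]
          change s * (l.map Prod.snd).prod ∈ B
          rw [hs, mul_assoc]
          exact hl2
        exact absurd (h.red _ hred hprod) (List.cons_ne_nil _ _)

theorem isAcyclic : (cosetGraph h.le).IsAcyclic := by
  classical
  intro v c hc
  rcases v with ⟨i, a⟩ | a
  · cases c with
    | nil => simp at hc
    | @cons _ w _ huw p1 =>
      rcases w with w | d
      · exact absurd huw (not_adj_inl_inl h.le _ _)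
      have hmem : (Sum.inr d : Vert S B) ∈ (SimpleGraph.Walk.cons huw p1).support := by
        rw [SimpleGraph.Walk.support_cons, List.mem_cons]
        right
        exact p1.start_mem_support
      have h1 := hc.rotate hmem
      induction d using QuotientGroup.induction_on with
      | H d => exact no_cycle_inr h d _ h1
  · induction a using QuotientGroup.induction_on with
    | H a => exact no_cycle_inr h a c hc

/-- The group acts on the coset tree. -/
theorem treeAction : TreeAction P (Vert S B) (cosetGraph h.le) where
  isTree := ⟨connected h, isAcyclic h⟩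
  adj := adj_smul h.le
  noInversion := no_inv h.le

end

end Pool.Agent.H61.AZ
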