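import Pool.Graph.R_pool_sql_team_seeded_1acbe0a2.Y74.OC.Cop

set_option autoImplicit false
set_option linter.unusedSectionVars false

open scoped InnerProductSpace InnerProduct ENNReal

/-! Elements of the group algebra whose range is orthogonal to an invariant subspace. -/

namespace Pool.Agent.H61.AZ

open Pool.Agent.W649.ZL Pool.Agent.Y74.OC

universe u v

section
variable {G : Type u} [Group G]

/-- the element as a vector -/
noncomputable def vec (η : G →₀ ℂ) : EE G Unit := cop η (dl (1, ()))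

theorem vec_apply (η : G →₀ ℂ) (x : G) : vec η (x, ()) = η x := by
  classical
  unfold vec
  rw [cop_apply]
  by_cases hx : x ∈ η.support
  · rw [Finset.sum_eq_single x]
    · rw [inv_mul_cancel, dl_apply_self, mul_one]
    · intro k _ hk
      rw [dl_apply_ne, mul_zero]
      intro h
      apply hk
      have h1 : k⁻¹ * x = 1 := congrArg Prod.fst h
      rw [inv_mul_eq_one] at h1
      exact h1
    · intro h; exact absurd hx h
  · rw [Finset.sum_eq_zero, Finsupp.notMem_support_iff.1 hx]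
    intro k hk
    rw [dl_apply_ne, mul_zero]
    intro h
    apply hx
    have h1 : k⁻¹ * x = 1 := congrArg Prod.fst h
    rw [inv_mul_eq_one] at h1
    rw [← h1]; exact hk

theorem vec_eq_sum (η : G →₀ ℂ) : vec η = ∑ w ∈ η.support, η w • dl (w, ()) := by
  classical
  ext ⟨x, ⟨⟩⟩
  rw [vec_apply]
  have h1 : ∀ (s : Finset G), (∑ w ∈ s, η w • (dl (w, ()) : EE G Unit)) (x, ())
      = ∑ w ∈ s, η w * (dl (w, ()) : EE G Unit) (x, ()) := by
    intro s
    induction s using Finset.induction_on with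
    | empty => rfl
    | insert a s ha ih =>
      rw [Finset.sum_insert ha, Finset.sum_insert ha, ← ih]
      rfl
  rw [h1]
  by_cases hx : x ∈ η.support
  · rw [Finset.sum_eq_single x]
    · rw [dl_apply_self, mul_one]
    · intro k _ hk
      rw [dl_apply_ne, mul_zero]
      intro h
      exact hk (congrArg Prod.fst h).symm
    · intro h; exact absurd hx h
  · rw [Finset.sum_eq_zero, Finsupp.notMem_support_iff.1 hx]
    intro k hk
    rw [dl_apply_ne, mul_zero]
    intro h
    apply hx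
    rw [show x = k from congrArg Prod.fst h]; exact hk

theorem inner_vec (f : EE G Unit) (η : G →₀ ℂ) :
    ⟪f, vec η⟫_ℂ = ∑ w ∈ η.support, η w * (starRingEnd ℂ) (f (w, ())) := by
  rw [vec_eq_sum, inner_sum]
  refine Finset.sum_congr rfl fun w _ => ?_
  rw [inner_smul_right, inner_dl_right]

/-- the adjoint element -/
noncomputable def star' (α : G →₀ ℂ) : G →₀ ℂ :=
  (α.mapRange (starRingEnd ℂ) (map_zero _)).equivMapDomain (Equiv.inv G)

theorem star'_apply (α : G →₀ ℂ) (g : G) : star' α g = (starRingEnd ℂ) (α g⁻¹) := by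
  unfold star'
  rw [Finsupp.equivMapDomain_apply, Finsupp.mapRange_apply]
  rfl

theorem star'_ne_zero {α : G →₀ ℂ} (hα : α ≠ 0) : star' α ≠ 0 := by
  intro h
  apply hα
  ext g
  have h1 := congrArg (fun β : G →₀ ℂ => β g⁻¹) h
  simp only [star'_apply, inv_inv, Finsupp.coe_zero, Pi.zero_apply, map_eq_zero] at h1
  rw [h1]; rfl

/-- the adjoint, as a vector, is orthogonal to the kernel -/
theorem vec_star'_mem (α : G →₀ ℂ) :
    vec (star' α) ∈ (LinearMap.ker (cop α : EE G Unit →ₗ[ℂ] EE G Unit))ᗮ := by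
  rw [Submodule.mem_orthogonal]
  intro f hf
  rw [inner_vec]
  have hf' : cop α f = 0 := hf
  have h1 := cop_apply α f 1
  rw [hf'] at h1
  have h2 : (0 : ℂ) = ∑ k ∈ α.support, α k * f (k⁻¹ * 1, ()) := h1
  have h3 := congrArg (starRingEnd ℂ) h2
  rw [map_zero, map_sum] at h3
  rw [h3]
  refine Finset.sum_bij' (fun w _ => w⁻¹) (fun w _ => w⁻¹) ?_ ?_ ?_ ?_ ?_
  · intro w hw
    rw [Finsupp.mem_support_iff, star'_apply] at hw
    rw [Finsupp.mem_support_iff]
    intro h; apply hw; rw [h, map_zero]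
  · intro w hw
    rw [Finsupp.mem_support_iff] at hw ⊢
    rw [star'_apply, inv_inv]
    intro h; apply hw
    exact (map_eq_zero _).1 h
  · intro w _; exact inv_inv w
  · intro w _; exact inv_inv w
  · intro w _
    rw [star'_apply, map_mul, inv_inv, mul_one]

/-- A closed subspace which contains all basis vectors is everything. -/
theorem eq_top_of_dl (P : Submodule ℂ (EE G Unit)) (hP : IsClosed (P : Set (EE G Unit)))
    (h : ∀ y : G, (dl (y, ()) : EE G Unit) ∈ P) : P = ⊤ := by
  have h1 : Pᗮ = ⊥ := by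
    rw [eq_bot_iff]
    intro x hx
    rw [Submodule.mem_orthogonal] at hx
    rw [Submodule.mem_bot]
    ext ⟨y, ⟨⟩⟩
    have h2 := hx _ (h y)
    rw [inner_dl_left] at h2
    exact h2
  have h2 := (Submodule.topologicalClosure_eq_top_iff (K := P)).2 h1
  rw [topcl_eq hP] at h2
  exact h2

/-- If the vector is orthogonal to an invariant subspace, then so is the range of the operator. -/
theorem ann_of_vec {K : Submodule ℂ (EE G Unit)} (hK : Pool.Agent.W649.ZL.Inv K) (η : G →₀ ℂ) (h : vec η ∈ Kᗮ)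
    (x : EE G Unit) : cop η x ∈ Kᗮ := by
  have hc : IsClosed ((Kᗮ.comap (cop η : EE G Unit →ₗ[ℂ] EE G Unit) :
      Submodule ℂ (EE G Unit)) : Set (EE G Unit)) :=
    IsClosed.preimage (cop η).continuous (Submodule.isClosed_orthogonal K)
  have h1 := eq_top_of_dl _ hc ?_
  · have h2 : x ∈ (Kᗮ.comap (cop η : EE G Unit →ₗ[ℂ] EE G Unit)) := by rw [h1]; trivial
    exact h2
  · intro y
    change cop η (dl (y, ())) ∈ Kᗮ
    have h2 : (dl (y, ()) : EE G Unit) = tr y⁻¹ (dl ((1 : G), ())) := by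
      rw [tr_dl, one_mul, inv_inv]
    rw [h2, cop_eqv, Submodule.mem_orthogonal]
    intro f hf
    have h3 : ⟪f, tr y⁻¹ (cop η (dl ((1 : G), ())))⟫_ℂ
        = ⟪tr y f, cop η (dl ((1 : G), ()))⟫_ℂ := by
      rw [inner_tr_left]
    rw [h3]
    exact (Submodule.mem_orthogonal K _).1 h _ (hK y f hf)

theorem vd_orth {K : Submodule ℂ (EE G Unit)} (hc : IsClosed (K : Set (EE G Unit))) :
    vd Kᗮ = 1 - vd K := by
  have h := vd_sub (P := K) (Q := ⊤) hc (by simp) le_top
  rw [top_inf_eq, vd_top] at h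
  simpa using h

/-- If the range of the operator is orthogonal to `K`, the kernel has at least the dimension of
`K`. -/
theorem vd_le_ker {K : Submodule ℂ (EE G Unit)} (hc : IsClosed (K : Set (EE G Unit)))
    (η : G →₀ ℂ) (h : ∀ x, cop η x ∈ Kᗮ) :
    vd K ≤ vd (LinearMap.ker (cop η : EE G Unit →ₗ[ℂ] EE G Unit)) := by
  have h1 := ker_add_range (cop η) (cop_eqv η)
  have h2 : vd (LinearMap.range (cop η : EE G Unit →ₗ[ℂ] EE G Unit)) ≤ vd Kᗮ := by
    apply vd_mono
    rintro _ ⟨x, rfl⟩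
    exact h x
  rw [vd_orth hc] at h2
  simp only [Fintype.card_unit, Nat.cast_one] at h1
  linarith

/-- A finitely supported vector is the vector of an element of the group algebra. -/
theorem exists_vec (F : EE G Unit) (hF : {x : G | F (x, ()) ≠ 0}.Finite) :
    ∃ η : G →₀ ℂ, vec η = F := by
  classical
  refine ⟨Finsupp.onFinset hF.toFinset (fun x => F (x, ())) (fun x hx => hF.mem_toFinset.2 hx), ?_⟩
  ext ⟨x, ⟨⟩⟩
  rw [vec_apply, Finsupp.onFinset_apply]

/-- The cut: restricting a kernel vector to a set gives a new element. -/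
theorem cut {K : Submodule ℂ (EE G Unit)} (hK : Pool.Agent.W649.ZL.Inv K) (η : G →₀ ℂ) (h : ∀ x, cop η x ∈ Kᗮ)
    (f : EE G Unit) (hf : cop η f = 0) (Y : Set G)
    (hfin : ∀ t ∈ η.support, ∀ t' ∈ η.support, {z : G | t⁻¹ * z ∈ Y ∧ t'⁻¹ * z ∉ Y}.Finite)
    (hne : cop η (res Y f) ≠ 0) :
    ∃ η' : G →₀ ℂ, η' ≠ 0 ∧ (∀ x, cop η' x ∈ Kᗮ) ∧
      ∀ z ∈ η'.support, ∃ t ∈ η.support, ∃ t' ∈ η.support, t⁻¹ * z ∈ Y ∧ t'⁻¹ * z ∉ Y := by
  classical
  set F := cop η (res Y f) with hF
  have key : ∀ z : G, F (z, ()) ≠ 0 →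
      ∃ t ∈ η.support, ∃ t' ∈ η.support, t⁻¹ * z ∈ Y ∧ t'⁻¹ * z ∉ Y := by
    intro z hz
    by_contra hcon
    push Not at hcon
    apply hz
    rw [hF, cop_apply]
    by_cases h1 : ∃ t ∈ η.support, t⁻¹ * z ∈ Y
    · obtain ⟨t, ht, ht2⟩ := h1
      have h2 : ∀ t' ∈ η.support, t'⁻¹ * z ∈ Y := fun t' ht' => hcon t ht t' ht' ht2
      have h3 := cop_apply η f z
      rw [hf] at h3
      refine Eq.trans (Finset.sum_congr rfl fun k hk => ?_) h3.symm
      rw [res_mem _ _ _ (h2 k hk)]
    · push Not at h1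
      refine Finset.sum_eq_zero fun k hk => ?_
      rw [res_notMem _ _ _ (h1 k hk), mul_zero]
  have hfinF : {z : G | F (z, ()) ≠ 0}.Finite := by
    refine Set.Finite.subset (s := ⋃ t ∈ η.support, ⋃ t' ∈ η.support,
      {z : G | t⁻¹ * z ∈ Y ∧ t'⁻¹ * z ∉ Y}) ?_ ?_
    · exact Set.Finite.biUnion η.support.finite_toSet fun t ht =>
        Set.Finite.biUnion η.support.finite_toSet fun t' ht' => hfin t ht t' ht'
    · intro z hz
      obtain ⟨t, ht, t', ht', h3⟩ := key z hz
      simp only [Set.mem_iUnion]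
      exact ⟨t, ht, t', ht', h3⟩
  obtain ⟨η', hη'⟩ := exists_vec F hfinF
  refine ⟨η', ?_, ?_, ?_⟩
  · intro h0
    apply hne
    rw [← hη', h0]
    unfold vec
    rw [map_zero]; rfl
  · apply ann_of_vec hK
    rw [hη']
    exact h _
  · intro z hz
    apply key
    rw [← hη', vec_apply]
    exact Finsupp.mem_support_iff.1 hz

end

end Pool.Agent.H61.AZ
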