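import Mathlib

set_option autoImplicit false

/-! Edges of a tree separate. -/

namespace Pool.Agent.H61.AZ

universe u v

section
variable {V : Type v} {T : SimpleGraph V}

/-- the half tree on the side of `x'` of the edge from `x` to `x'` -/
def half (T : SimpleGraph V) (x x' : V) : Set V := {w | T.dist x' w < T.dist x w}

theorem mem_half (x x' w : V) : w ∈ half T x x' ↔ T.dist x' w < T.dist x w := Iff.rfl

variable (hT : T.IsTree)

include hT

theorem dist_cases {x x' : V} (h : T.Adj x x') (w : V) :
    T.dist x w = T.dist x' w + 1 ∨ T.dist x' w = T.dist x w + 1 := by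
  have h1 := hT.dist_eq_dist_add_one_of_adj w h
  rw [T.dist_comm (u := w), T.dist_comm (u := w)] at h1
  rcases h1 with h1 | h1
  · exact Or.inl h1
  · exact Or.inr h1

theorem mem_half_iff {x x' : V} (h : T.Adj x x') (w : V) :
    w ∈ half T x x' ↔ T.dist x w = T.dist x' w + 1 := by
  rw [mem_half]
  rcases dist_cases hT h w with h1 | h1 <;> omega

theorem notMem_half_iff {x x' : V} (h : T.Adj x x') (w : V) :
    w ∉ half T x x' ↔ T.dist x' w = T.dist x w + 1 := by
  rw [mem_half]
  rcases dist_cases hT h w with h1 | h1 <;> omega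

theorem half_swap {x x' : V} (h : T.Adj x x') (w : V) : w ∉ half T x x' ↔ w ∈ half T x' x := by
  rw [notMem_half_iff hT h, mem_half_iff hT h.symm]

theorem cross {x x' s s' : V} (h : T.Adj x x') (hs : T.Adj s s') (h1 : s ∈ half T x x')
    (h2 : s' ∉ half T x x') : s = x' ∧ s' = x := by
  rw [mem_half_iff hT h] at h1
  rw [notMem_half_iff hT h] at h2
  have h3 := hT.dist_eq_dist_add_one_of_adj x hs
  have h4 := hT.dist_eq_dist_add_one_of_adj x' hs
  have hij : T.dist x s' = T.dist x' s := by omega
  -- two geodesics from `x` to `s`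
  obtain ⟨p, hp⟩ := hT.connected.exists_walk_length_eq_dist x s'
  obtain ⟨q, hq⟩ := hT.connected.exists_walk_length_eq_dist x' s
  have hp1 : (p.concat hs.symm).length = T.dist x s := by
    rw [SimpleGraph.Walk.length_concat, hp]; omega
  have hq1 : (SimpleGraph.Walk.cons h q).length = T.dist x s := by
    rw [SimpleGraph.Walk.length_cons, hq]; omega
  have hpp := (p.concat hs.symm).isPath_of_length_eq_dist hp1
  have hqp := (SimpleGraph.Walk.cons h q).isPath_of_length_eq_dist hq1
  have heq := hT.isAcyclic.path_unique ⟨_, hpp⟩ ⟨_, hqp⟩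
  have heq' : p.concat hs.symm = SimpleGraph.Walk.cons h q := congrArg Subtype.val heq
  have hmem : s' ∈ (p.concat hs.symm).support := by
    rw [SimpleGraph.Walk.support_concat]
    simp
  rw [heq', SimpleGraph.Walk.support_cons, List.mem_cons] at hmem
  rcases hmem with hmem | hmem
  · subst hmem
    rw [T.dist_self] at hij
    have h5 := (hT.connected.dist_eq_zero_iff (u := x') (v := s)).1 hij.symm
    exact ⟨h5.symm, rfl⟩
  · exfalso
    have h6 : T.dist x' s' ≤ q.length := by
      classical
      exact (T.dist_le (q.takeUntil s' hmem)).trans (q.length_takeUntil_le hmem)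
    omega

theorem walk_sep {x x' : V} (h : T.Adj x x') : ∀ {a w : V} (p : T.Walk a w), a ∈ half T x x' →
    w ∉ half T x x' → T.dist a x' + 1 + T.dist x w ≤ p.length := by
  intro a w p
  induction p with
  | nil => intro h1 h2; exact absurd h1 h2
  | @cons a b w hab p ih =>
    intro h1 h2
    rw [SimpleGraph.Walk.length_cons]
    by_cases hb : b ∈ half T x x'
    · have h3 := ih hb h2
      have h4 := hT.connected.dist_triangle (u := a) (v := b) (w := x')
      have h5 : T.dist a b = 1 := SimpleGraph.dist_eq_one_iff_adj.2 hab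
      omega
    · obtain ⟨rfl, rfl⟩ := cross hT h hab h1 hb
      rw [T.dist_self]
      have := T.dist_le p
      omega

theorem dist_sep {x x' : V} (h : T.Adj x x') {a w : V} (h1 : a ∈ half T x x')
    (h2 : w ∉ half T x x') : T.dist a x' + 1 + T.dist x w ≤ T.dist a w := by
  obtain ⟨p, hp⟩ := hT.connected.exists_walk_length_eq_dist a w
  rw [← hp]
  exact walk_sep hT h p h1 h2

theorem interval_finite (a b : V) : {p : V | T.dist a p + T.dist p b ≤ T.dist a b}.Finite := by
  obtain ⟨q, hq⟩ := hT.connected.exists_walk_length_eq_dist a b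
  have hqp := q.isPath_of_length_eq_dist hq
  refine Set.Finite.subset (q.support.finite_toSet) ?_
  intro p hp
  obtain ⟨r, hr⟩ := hT.connected.exists_walk_length_eq_dist a p
  obtain ⟨r', hr'⟩ := hT.connected.exists_walk_length_eq_dist p b
  have h1 : (r.append r').length = T.dist a b := by
    have h2 := T.dist_le (r.append r')
    rw [SimpleGraph.Walk.length_append] at h2 ⊢
    have h3 : T.dist a p + T.dist p b ≤ T.dist a b := hp
    omega
  have hpath := (r.append r').isPath_of_length_eq_dist h1
  have heq := hT.isAcyclic.path_unique ⟨_, hpath⟩ ⟨_, hqp⟩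
  have heq' : r.append r' = q := congrArg Subtype.val heq
  change p ∈ q.support
  rw [← heq', SimpleGraph.Walk.mem_support_append_iff]
  left
  exact r.end_mem_support

end

section
variable {G : Type u} [Group G] {V : Type v} [MulAction G V] {T : SimpleGraph V}

/-- `G` acts on the tree `T` by automorphisms and without inversions. -/
structure TreeAction (G : Type u) (V : Type v) [Group G] [MulAction G V] (T : SimpleGraph V) :
    Prop where
  isTree : T.IsTree
  adj : ∀ (g : G) (x y : V), T.Adj x y → T.Adj (g • x) (g • y)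
  noInversion : ∀ (g : G) (x y : V), T.Adj x y → g • x = y → g • y ≠ x

theorem TreeAction.dist_le (h : TreeAction G V T) (g : G) (x y : V) :
    T.dist (g • x) (g • y) ≤ T.dist x y := by
  obtain ⟨p, hp⟩ := h.isTree.connected.exists_walk_length_eq_dist x y
  let φ : T →g T := ⟨fun v => g • v, fun {a b} hab => h.adj g a b hab⟩
  have h1 := T.dist_le (p.map φ)
  rw [SimpleGraph.Walk.length_map, hp] at h1
  exact h1

theorem TreeAction.dist (h : TreeAction G V T) (g : G) (x y : V) :
    T.dist (g • x) (g • y) = T.dist x y := by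
  apply le_antisymm (h.dist_le g x y)
  have := h.dist_le g⁻¹ (g • x) (g • y)
  rwa [inv_smul_smul, inv_smul_smul] at this

theorem TreeAction.dist_inv (h : TreeAction G V T) (g : G) (x y : V) :
    T.dist (g⁻¹ • x) y = T.dist x (g • y) := by
  rw [← h.dist g, smul_inv_smul]

/-- the pointwise stabilisers of the edges are finite -/
def FiniteEdges (G : Type u) (V : Type v) [Group G] [MulAction G V] (T : SimpleGraph V) : Prop :=
  ∀ x y : V, T.Adj x y → {g : G | g • x = x ∧ g • y = y}.Finite

theorem sep_finite (h : TreeAction G V T) (hf : FiniteEdges G V T) {x x' : V} (hx : T.Adj x x')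
    (a b : V) : {z : G | z⁻¹ • a ∈ half T x x' ∧ z⁻¹ • b ∉ half T x x'}.Finite := by
  have hfin : ({p : V | T.dist a p + T.dist p b ≤ T.dist a b} ×ˢ
      {p : V | T.dist a p + T.dist p b ≤ T.dist a b}).Finite :=
    (interval_finite h.isTree a b).prod (interval_finite h.isTree a b)
  have hsub : {z : G | z⁻¹ • a ∈ half T x x' ∧ z⁻¹ • b ∉ half T x x'} ⊆
      ⋃ p ∈ {p : V | T.dist a p + T.dist p b ≤ T.dist a b} ×ˢ
        {p : V | T.dist a p + T.dist p b ≤ T.dist a b}, {z : G | z • x = p.1 ∧ z • x' = p.2} := by
    rintro z ⟨h1, h2⟩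
    have h3 := dist_sep h.isTree hx h1 h2
    rw [h.dist_inv, T.dist_comm (u := x), h.dist_inv, ← h.dist z (z⁻¹ • a), smul_inv_smul,
      smul_inv_smul, T.dist_comm (u := b)] at h3
    have h4 : T.dist (z • x) (z • x') = 1 := by
      rw [h.dist]; exact SimpleGraph.dist_eq_one_iff_adj.2 hx
    have h5 := h.isTree.connected.dist_triangle (u := a) (v := z • x') (w := z • x)
    have h6 := h.isTree.connected.dist_triangle (u := z • x') (v := z • x) (w := b)
    rw [T.dist_comm (u := z • x')] at h5 h6
    simp only [Set.mem_iUnion]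
    refine ⟨(z • x, z • x'), ⟨?_, ?_⟩, rfl, rfl⟩
    · change T.dist a (z • x) + T.dist (z • x) b ≤ T.dist a b
      omega
    · change T.dist a (z • x') + T.dist (z • x') b ≤ T.dist a b
      rw [T.dist_comm (u := z • x')]
      rw [T.dist_comm (u := z • x')] at h6
      omega
  refine Set.Finite.subset (Set.Finite.biUnion hfin fun p _ => ?_) hsub
  by_cases hne : ∃ z0 : G, z0 • x = p.1 ∧ z0 • x' = p.2
  · obtain ⟨z0, h1, h2⟩ := hne
    refine Set.Finite.subset ((hf x x' hx).image (fun g => z0 * g)) ?_
    rintro z ⟨h3, h4⟩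
    refine ⟨z0⁻¹ * z, ⟨?_, ?_⟩, by simp⟩
    · rw [mul_smul, h3, ← h1, inv_smul_smul]
    · rw [mul_smul, h4, ← h2, inv_smul_smul]
  · convert Set.finite_empty
    ext z
    simp only [Set.mem_setOf_eq, Set.mem_empty_iff_false, iff_false]
    intro hz
    exact hne ⟨z, hz⟩

end

end Pool.Agent.H61.AZ
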