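import Pool.Agent.H61.AZ.Sub
import Pool.Agent.H61.AZ.Tree

set_option autoImplicit false
set_option linter.unusedSectionVars false

open scoped InnerProductSpace InnerProduct ENNReal

/-! Actions on trees: the kernel of an element of the group algebra is at most as large as that of
an element of the group algebra of a vertex stabiliser. -/

namespace Pool.Agent.H61.AZ

open Pool.Agent.W649.ZL Pool.Agent.Y74.OC

universe u v

section
variable {G : Type u} [Group G] {V : Type v} [MulAction G V] {T : SimpleGraph V}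

/-- nonzero, and the range is orthogonal to `K` -/
def Good (K : Submodule ℂ (EE G Unit)) (η : G →₀ ℂ) : Prop := η ≠ 0 ∧ ∀ x, cop η x ∈ Kᗮ

/-- the conclusion -/
def Concl (V : Type v) [MulAction G V] (K : Submodule ℂ (EE G Unit)) : Prop :=
  ∃ v : V, ∃ β : MulAction.stabilizer G v →₀ ℂ, β ≠ 0 ∧ vd K ≤ vd (kr β)

theorem res_inter (A B : Set G) (f : EE G Unit) : res (A ∩ B) f = res A (res B f) := by
  ext ⟨x, ⟨⟩⟩
  by_cases ha : x ∈ A
  · rw [res_mem A _ _ ha]
    by_cases hb : x ∈ B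
    · rw [res_mem B _ _ hb, res_mem (A ∩ B) _ _ ⟨ha, hb⟩]
    · rw [res_notMem B _ _ hb, res_notMem (A ∩ B) _ _ (fun h => hb h.2)]
  · rw [res_notMem A _ _ ha, res_notMem (A ∩ B) _ _ (fun h => ha h.1)]

theorem exists_next (h : TreeAction G V T) {c w : V} (hne : w ≠ c) :
    ∃ x, T.Adj x c ∧ w ∉ half T x c := by
  obtain ⟨p, hp⟩ := h.isTree.connected.exists_walk_length_eq_dist c w
  cases p with
  | nil => exact absurd rfl hne
  | @cons _ x _ hx p =>
    refine ⟨x, hx.symm, ?_⟩
    rw [notMem_half_iff h.isTree hx.symm]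
    rw [SimpleGraph.Walk.length_cons] at hp
    have h1 := T.dist_le p
    rcases dist_cases h.isTree hx w with h2 | h2 <;> omega

variable {K : Submodule ℂ (EE G Unit)}

theorem vstep (h : TreeAction G V T) (hf : FiniteEdges G V T) (hK : Pool.Agent.W649.ZL.Inv K)
    (hc : IsClosed (K : Set (EE G Unit))) (v0 c : V) (ρ : ℕ) (η : G →₀ ℂ) (hη : Good K η)
    (hs : ∀ t ∈ η.support, T.dist c (t⁻¹ • v0) ≤ ρ) :
    Concl V K ∨ ∃ x x' : V, T.Adj x x' ∧ ∃ η' : G →₀ ℂ, Good K η' ∧
      ∀ z ∈ η'.support, T.dist x (z⁻¹ • v0) ≤ ρ ∧ T.dist x' (z⁻¹ • v0) ≤ ρ := by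
  classical
  by_cases hall : ∀ x x' : V, T.Adj x x' → ∀ f, cop η f = 0 →
      cop η (res {y : G | y⁻¹ • c ∈ half T x x'} f) = 0
  · left
    have h1 : ∀ (S : Finset V), (∀ x ∈ S, T.Adj x c) → ∀ f, cop η f = 0 →
        cop η (res {y : G | ∀ x ∈ S, y⁻¹ • c ∈ half T x c} f) = 0 := by
      intro S
      induction S using Finset.induction_on with
      | empty =>
        intro _ f hf0
        have : res {y : G | ∀ x ∈ (∅ : Finset V), y⁻¹ • c ∈ half T x c} f = f := by
          apply res_of_supp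
          intro x hx
          exact absurd (fun x hx' => absurd hx' (Finset.notMem_empty x)) hx
        rw [this, hf0]
      | insert a S ha ih =>
        intro hS f hf0
        have e : {y : G | ∀ x ∈ insert a S, y⁻¹ • c ∈ half T x c}
            = {y : G | y⁻¹ • c ∈ half T a c} ∩ {y : G | ∀ x ∈ S, y⁻¹ • c ∈ half T x c} := by
          ext y
          simp only [Finset.mem_insert, forall_eq_or_imp]
          rfl
        rw [e, res_inter]
        exact hall a c (hS a (Finset.mem_insert_self a S)) _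
          (ih (fun x hx => hS x (Finset.mem_insert_of_mem hx)) f hf0)
    have h2 : ∀ f, cop η f = 0 →
        cop η (res ((MulAction.stabilizer G c : Subgroup G) : Set G) f) = 0 := by
      intro f hf0
      ext ⟨z, ⟨⟩⟩
      change _ = (0 : ℂ)
      have hex : ∀ w : V, ∃ x : V, w ≠ c → T.Adj x c ∧ w ∉ half T x c := by
        intro w
        by_cases hw : w = c
        · exact ⟨c, fun h => absurd hw h⟩
        · obtain ⟨x, hx⟩ := exists_next h hw
          exact ⟨x, fun _ => hx⟩
      choose nx hnx using hex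
      set W : Finset V := (η.support.image (fun t => (t⁻¹ * z)⁻¹ • c)).filter (fun w => w ≠ c)
        with hW
      have hWc : ∀ w ∈ W, w ≠ c := fun w hw => (Finset.mem_filter.1 hw).2
      have h3 := h1 (W.image nx) (by
        intro x hx
        obtain ⟨w, hw, rfl⟩ := Finset.mem_image.1 hx
        exact (hnx w (hWc w hw)).1) f hf0
      have h4 := cop_apply η (res {y : G | ∀ x ∈ W.image nx, y⁻¹ • c ∈ half T x c} f) z
      rw [h3] at h4
      rw [cop_apply]
      refine Eq.trans (Finset.sum_congr rfl fun t ht => ?_) h4.symm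
      congr 1
      by_cases hmem : t⁻¹ * z ∈ MulAction.stabilizer G c
      · rw [res_mem _ _ _ hmem, res_mem]
        intro x hx
        obtain ⟨w, hw, rfl⟩ := Finset.mem_image.1 hx
        have h5 : (t⁻¹ * z)⁻¹ • c = c := by
          rw [inv_smul_eq_iff]
          exact (MulAction.mem_stabilizer_iff.1 hmem).symm
        change (t⁻¹ * z)⁻¹ • c ∈ half T (nx w) c
        rw [h5, mem_half, T.dist_self, SimpleGraph.dist_eq_one_iff_adj.2 (hnx w (hWc w hw)).1]
        exact Nat.one_pos
      · rw [res_notMem _ _ _ hmem, res_notMem]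
        intro h5
        have h6 : (t⁻¹ * z)⁻¹ • c ≠ c := by
          intro h7
          apply hmem
          rw [MulAction.mem_stabilizer_iff]
          rw [inv_smul_eq_iff] at h7
          exact h7.symm
        have h7 : (t⁻¹ * z)⁻¹ • c ∈ W := by
          rw [hW, Finset.mem_filter, Finset.mem_image]
          exact ⟨⟨t, ht, rfl⟩, h6⟩
        have h8 := h5 (nx ((t⁻¹ * z)⁻¹ • c)) (Finset.mem_image_of_mem _ h7)
        exact (hnx _ h6).2 h8
    obtain ⟨β, hβ, hβ2⟩ := restrict η hη.1 (MulAction.stabilizer G c) h2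
    exact ⟨c, β, hβ, (vd_le_ker hc η hη.2).trans hβ2⟩
  · right
    push Not at hall
    obtain ⟨x, x', hx, f, hf0, hne⟩ := hall
    obtain ⟨η', h1, h2, h3⟩ := cut hK η hη.2 f hf0 {y : G | y⁻¹ • c ∈ half T x x'} (by
      intro t _ t' _
      have := sep_finite h hf hx (t • c) (t' • c)
      refine this.subset ?_
      rintro z ⟨h1, h2⟩
      change (t⁻¹ * z)⁻¹ • c ∈ half T x x' at h1
      change ¬ ((t'⁻¹ * z)⁻¹ • c ∈ half T x x') at h2
      rw [mul_inv_rev, inv_inv, mul_smul] at h1 h2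
      exact ⟨h1, h2⟩) hne
    refine ⟨x, x', hx, η', ⟨h1, h2⟩, ?_⟩
    intro z hz
    obtain ⟨t, ht, t', ht', h4, h5⟩ := h3 z hz
    change (t⁻¹ * z)⁻¹ • c ∈ half T x x' at h4
    change ¬ ((t'⁻¹ * z)⁻¹ • c ∈ half T x x') at h5
    have a1 : ∀ s : G, T.dist ((s⁻¹ * z)⁻¹ • c) (z⁻¹ • v0) = T.dist c (s⁻¹ • v0) := by
      intro s
      rw [h.dist_inv, smul_smul, mul_assoc, mul_inv_cancel, mul_one]
    have a2 := a1 t
    have a3 := a1 t'
    have a4 := hs t ht
    have a5 := hs t' ht'
    by_cases hw : z⁻¹ • v0 ∈ half T x x'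
    · rw [half_swap h.isTree hx] at h5
      have h6 := (half_swap h.isTree hx.symm (z⁻¹ • v0)).2 hw
      have h7 := dist_sep h.isTree hx.symm h5 h6
      rw [mem_half_iff h.isTree hx] at hw
      constructor <;> omega
    · have h7 := dist_sep h.isTree hx h4 hw
      rw [notMem_half_iff h.isTree hx] at hw
      constructor <;> omega

theorem estep (h : TreeAction G V T) (hf : FiniteEdges G V T) (hK : Pool.Agent.W649.ZL.Inv K)
    (hc : IsClosed (K : Set (EE G Unit))) (v0 p q : V) (hpq : T.Adj p q) (ρ : ℕ) (η : G →₀ ℂ)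
    (hη : Good K η)
    (hs : ∀ t ∈ η.support, T.dist p (t⁻¹ • v0) ≤ ρ ∧ T.dist q (t⁻¹ • v0) ≤ ρ) :
    Concl V K ∨ ∃ x : V, ∃ η' : G →₀ ℂ, Good K η' ∧
      ∀ z ∈ η'.support, T.dist x (z⁻¹ • v0) + 1 ≤ ρ := by
  classical
  by_cases hall : ∀ x x' : V, T.Adj x x' → ∀ f, cop η f = 0 →
      cop η (res {y : G | y⁻¹ • p ∈ half T x x' ∨ y⁻¹ • q ∈ half T x x'} f) = 0
  · left
    set H : Subgroup G := MulAction.stabilizer G p ⊓ MulAction.stabilizer G q with hH
    have hpp : p ∈ half T q p := by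
      rw [mem_half, T.dist_self, SimpleGraph.dist_eq_one_iff_adj.2 hpq.symm]; exact Nat.one_pos
    have hqq : q ∈ half T p q := by
      rw [mem_half, T.dist_self, SimpleGraph.dist_eq_one_iff_adj.2 hpq]; exact Nat.one_pos
    have e : (H : Set G) = {y : G | y⁻¹ • p ∈ half T p q ∨ y⁻¹ • q ∈ half T p q} ∩
        {y : G | y⁻¹ • p ∈ half T q p ∨ y⁻¹ • q ∈ half T q p} := by
      ext y
      constructor
      · rintro ⟨h1, h2⟩
        have h1' : y⁻¹ • p = p := by
          rw [inv_smul_eq_iff]; exact (MulAction.mem_stabilizer_iff.1 h1).symm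
        have h2' : y⁻¹ • q = q := by
          rw [inv_smul_eq_iff]; exact (MulAction.mem_stabilizer_iff.1 h2).symm
        refine ⟨Or.inr ?_, Or.inl ?_⟩
        · rw [h2']; exact hqq
        · rw [h1']; exact hpp
      · rintro ⟨h1, h2⟩
        have hadj := h.adj y⁻¹ p q hpq
        have hd : T.dist (y⁻¹ • p) (y⁻¹ • q) = 1 := SimpleGraph.dist_eq_one_iff_adj.2 hadj
        have key : (y⁻¹ • q ∈ half T p q ∧ y⁻¹ • p ∈ half T q p) ∨
            (y⁻¹ • p ∈ half T p q ∧ y⁻¹ • q ∈ half T q p) := by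
          rcases h1 with h1 | h1 <;> rcases h2 with h2 | h2
          · exact absurd h1 ((half_swap h.isTree hpq _).2 h2)
          · exact Or.inr ⟨h1, h2⟩
          · exact Or.inl ⟨h1, h2⟩
          · exact absurd h1 ((half_swap h.isTree hpq _).2 h2)
        rcases key with ⟨h3, h4⟩ | ⟨h3, h4⟩
        · have h5 := cross h.isTree hpq hadj.symm h3 ((half_swap h.isTree hpq _).2 h4)
          refine ⟨?_, ?_⟩
          · change y ∈ MulAction.stabilizer G p
            rw [MulAction.mem_stabilizer_iff]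
            have := h5.2
            rw [inv_smul_eq_iff] at this
            exact this.symm
          · change y ∈ MulAction.stabilizer G q
            rw [MulAction.mem_stabilizer_iff]
            have := h5.1
            rw [inv_smul_eq_iff] at this
            exact this.symm
        · have h5 := cross h.isTree hpq hadj h3 ((half_swap h.isTree hpq _).2 h4)
          exact absurd h5.2 (h.noInversion y⁻¹ p q hpq h5.1)
    have h2 : ∀ f, cop η f = 0 → cop η (res (H : Set G) f) = 0 := by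
      intro f hf0
      rw [e, res_inter]
      exact hall p q hpq _ (hall q p hpq.symm f hf0)
    obtain ⟨β, hβ, hβ2⟩ := restrict η hη.1 H h2
    refine ⟨p, β.mapDomain (Subgroup.inclusion (inf_le_left : H ≤ MulAction.stabilizer G p)),
      ?_, ?_⟩
    · intro h0
      apply hβ
      exact Finsupp.mapDomain_injective (Subgroup.inclusion_injective _)
        (by rw [h0, Finsupp.mapDomain_zero])
    · exact ((vd_le_ker hc η hη.2).trans hβ2).trans
        (vd_kr_mapDomain_ge _ (Subgroup.inclusion_injective _) β)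
  · right
    push Not at hall
    obtain ⟨x, x', hx, f, hf0, hne⟩ := hall
    obtain ⟨η', h1, h2, h3⟩ := cut hK η hη.2 f hf0
      {y : G | y⁻¹ • p ∈ half T x x' ∨ y⁻¹ • q ∈ half T x x'} (by
      intro t _ t' _
      refine ((sep_finite h hf hx (t • p) (t' • p)).union
        (sep_finite h hf hx (t • q) (t' • p))).subset ?_
      rintro z ⟨h1, h2⟩
      change (t⁻¹ * z)⁻¹ • p ∈ half T x x' ∨ (t⁻¹ * z)⁻¹ • q ∈ half T x x' at h1
      change ¬ ((t'⁻¹ * z)⁻¹ • p ∈ half T x x' ∨ (t'⁻¹ * z)⁻¹ • q ∈ half T x x') at h2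
      rw [not_or] at h2
      obtain ⟨h2, -⟩ := h2
      rw [mul_inv_rev, inv_inv, mul_smul] at h1 h2
      rw [mul_smul] at h1
      rcases h1 with h1 | h1
      · exact Or.inl ⟨h1, h2⟩
      · exact Or.inr ⟨h1, h2⟩) hne
    refine ⟨x, η', ⟨h1, h2⟩, ?_⟩
    intro z hz
    obtain ⟨t, ht, t', ht', h4, h5⟩ := h3 z hz
    change (t⁻¹ * z)⁻¹ • p ∈ half T x x' ∨ (t⁻¹ * z)⁻¹ • q ∈ half T x x' at h4
    change ¬ ((t'⁻¹ * z)⁻¹ • p ∈ half T x x' ∨ (t'⁻¹ * z)⁻¹ • q ∈ half T x x') at h5
    rw [not_or] at h5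
    obtain ⟨h5, h5'⟩ := h5
    have a1 : ∀ (s : G) (c : V), T.dist ((s⁻¹ * z)⁻¹ • c) (z⁻¹ • v0) = T.dist c (s⁻¹ • v0) := by
      intro s c
      rw [h.dist_inv, smul_smul, mul_assoc, mul_inv_cancel, mul_one]
    have a2 := a1 t p
    have a2' := a1 t q
    have a3 := a1 t' p
    have a3' := a1 t' q
    have a4 := hs t ht
    have a5 := hs t' ht'
    by_cases hw : z⁻¹ • v0 ∈ half T x x'
    · have h6 := (half_swap h.isTree hx.symm (z⁻¹ • v0)).2 hw
      have h7 := dist_sep h.isTree hx.symm ((half_swap h.isTree hx _).1 h5) h6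
      have h7' := dist_sep h.isTree hx.symm ((half_swap h.isTree hx _).1 h5') h6
      rw [mem_half_iff h.isTree hx] at hw
      -- one of the two vertices is not `x`
      by_cases h8 : (t'⁻¹ * z)⁻¹ • p = x
      · have h9 : (t'⁻¹ * z)⁻¹ • q ≠ x := by
          intro h10
          have := MulAction.injective _ (h8.trans h10.symm)
          exact hpq.ne this
        have h10 := h.isTree.connected.pos_dist_of_ne h9
        omega
      · have h10 := h.isTree.connected.pos_dist_of_ne h8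
        omega
    · rcases h4 with h4 | h4
      · have h7 := dist_sep h.isTree hx h4 hw
        omega
      · have h7 := dist_sep h.isTree hx h4 hw
        omega

theorem main_aux (h : TreeAction G V T) (hf : FiniteEdges G V T)
    (hK : Pool.Agent.W649.ZL.Inv K) (hc : IsClosed (K : Set (EE G Unit))) (v0 : V) : ∀ m : ℕ,
    (∀ (c : V) (ρ : ℕ) (η : G →₀ ℂ), 2 * ρ + 1 ≤ m → Good K η →
      (∀ t ∈ η.support, T.dist c (t⁻¹ • v0) ≤ ρ) → Concl V K) ∧
    (∀ (p q : V) (ρ : ℕ) (η : G →₀ ℂ), 2 * ρ ≤ m → T.Adj p q → Good K η →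
      (∀ t ∈ η.support, T.dist p (t⁻¹ • v0) ≤ ρ ∧ T.dist q (t⁻¹ • v0) ≤ ρ) → Concl V K) := by
  intro m
  induction m with
  | zero =>
    refine ⟨fun c ρ η hm => by omega, fun p q ρ η hm hpq hη hs => ?_⟩
    exfalso
    obtain ⟨t, ht⟩ := Finsupp.support_nonempty_iff.2 hη.1
    obtain ⟨h1, h2⟩ := hs t ht
    have h3 : T.dist p (t⁻¹ • v0) = 0 := by omega
    have h4 : T.dist q (t⁻¹ • v0) = 0 := by omega
    rw [h.isTree.connected.dist_eq_zero_iff] at h3 h4
    exact hpq.ne (h3.trans h4.symm)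
  | succ m ih =>
    refine ⟨fun c ρ η hm hη hs => ?_, fun p q ρ η hm hpq hη hs => ?_⟩
    · rcases vstep h hf hK hc v0 c ρ η hη hs with h1 | ⟨x, x', hx, η', hη', hs'⟩
      · exact h1
      · exact ih.2 x x' ρ η' (by omega) hx hη' hs'
    · rcases estep h hf hK hc v0 p q hpq ρ η hη hs with h1 | ⟨x, η', hη', hs'⟩
      · exact h1
      · obtain ⟨t, ht⟩ := Finsupp.support_nonempty_iff.2 hη'.1
        have h2 := hs' t ht
        refine ih.1 x (ρ - 1) η' (by omega) hη' (fun z hz => ?_)
        have := hs' z hz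
        omega

/-- **Main theorem**, for finite edge stabilisers. -/
theorem main (h : TreeAction G V T) (hf : FiniteEdges G V T) (α : G →₀ ℂ) (hα : α ≠ 0) :
    ∃ v : V, ∃ β : MulAction.stabilizer G v →₀ ℂ, β ≠ 0 ∧ vd (kr α) ≤ vd (kr β) := by
  classical
  obtain ⟨v0⟩ := h.isTree.connected.nonempty
  have hK : Pool.Agent.W649.ZL.Inv (kr α) := inv_ker _ (cop_eqv α)
  have hc : IsClosed (kr α : Set (EE G Unit)) := ContinuousLinearMap.isClosed_ker _
  have hgood : Good (kr α) (star' α) := ⟨star'_ne_zero hα, ann_of_vec hK _ (vec_star'_mem α)⟩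
  set ρ := (star' α).support.sup (fun t => T.dist v0 (t⁻¹ • v0)) with hρ
  exact (main_aux h hf hK hc v0 (2 * ρ + 1)).1 v0 ρ (star' α) le_rfl hgood
    (fun t ht => Finset.le_sup (f := fun t => T.dist v0 (t⁻¹ • v0)) ht)

end

end Pool.Agent.H61.AZ
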