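import Pool.Agent.H61.AZ.Main
import Pool.Agent.H61.AZ.Amalgam

set_option autoImplicit false
set_option linter.unusedSectionVars false

open scoped InnerProductSpace InnerProduct ENNReal

/-! Actions on trees and on totally ordered sets. -/

namespace Pool.Agent.H61.AZ

open Pool.Agent.W649.ZL Pool.Agent.Y74.OC

universe u v w

section
variable {G : Type u} [Group G]

/-- an element supported on one left coset of `H` -/
theorem restrict_coset (α : G →₀ ℂ) (hα : α ≠ 0) (H : Subgroup G) (g₀ : G)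
    (hs : ∀ t ∈ α.support, g₀⁻¹ * t ∈ H) :
    ∃ β : H →₀ ℂ, β ≠ 0 ∧ vd (kr α) ≤ vd (kr β) := by
  refine restrict α hα H ?_
  intro f hf
  ext ⟨z, ⟨⟩⟩
  rw [cop_apply]
  change _ = (0 : ℂ)
  by_cases hz : g₀⁻¹ * z ∈ H
  · have h1 := cop_apply α f z
    rw [hf] at h1
    refine Eq.trans (Finset.sum_congr rfl fun t ht => ?_) h1.symm
    rw [res_mem]
    change t⁻¹ * z ∈ H
    have h2 : t⁻¹ * z = (g₀⁻¹ * t)⁻¹ * (g₀⁻¹ * z) := by group
    rw [h2]
    exact H.mul_mem (H.inv_mem (hs t ht)) hz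
  · refine Finset.sum_eq_zero fun t ht => ?_
    rw [res_notMem, mul_zero]
    intro h3
    apply hz
    have h2 : g₀⁻¹ * z = (g₀⁻¹ * t) * (t⁻¹ * z) := by group
    rw [h2]
    exact H.mul_mem (hs t ht) h3

variable {V : Type v} [MulAction G V] {T : SimpleGraph V} {Ω : Type w} [LinearOrder Ω]
  [MulAction G Ω]

theorem TreeAction.subgroup (h : TreeAction G V T) (H : Subgroup G) : TreeAction H V T where
  isTree := h.isTree
  adj := fun g x y hxy => h.adj (g : G) x y hxy
  noInversion := fun g x y hxy hg => h.noInversion (g : G) x y hxy hg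

/-- **Main theorem**, with an action on a totally ordered set. -/
theorem main_order (h : TreeAction G V T)
    (hmono : ∀ (g : G) (x y : Ω), x ≤ y → g • x ≤ g • y) (ω : Ω)
    (hf : ∀ x y : V, T.Adj x y → {g : G | g • x = x ∧ g • y = y ∧ g • ω = ω}.Finite)
    (α : G →₀ ℂ) (hα : α ≠ 0) :
    ∃ v : V, ∃ β : (MulAction.stabilizer G v ⊓ MulAction.stabilizer G ω : Subgroup G) →₀ ℂ,
      β ≠ 0 ∧ vd (kr α) ≤ vd (kr β) := by
  classical
  obtain ⟨g₀, hg₀, hmin⟩ := Finset.exists_min_image α.support (fun g => g • ω)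
    (Finsupp.support_nonempty_iff.2 hα)
  have h1 := vd_le_of_action hmono ω g₀ α hmin
  set α₁ := α.filter (fun g => g • ω = g₀ • ω) with hα₁
  have hne : α₁ ≠ 0 := by
    intro h0
    have h2 : α₁ g₀ = α g₀ := Finsupp.filter_apply_pos _ _ rfl
    rw [h0] at h2
    exact (Finsupp.mem_support_iff.1 hg₀) h2.symm
  obtain ⟨β, hβ, hβ2⟩ := restrict_coset α₁ hne (MulAction.stabilizer G ω) g₀ (by
    intro t ht
    rw [hα₁, Finsupp.support_filter, Finset.mem_filter] at ht
    rw [MulAction.mem_stabilizer_iff, mul_smul, ht.2, inv_smul_smul])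
  obtain ⟨v, γ, hγ, hγ2⟩ := main (h.subgroup (MulAction.stabilizer G ω)) (by
    intro x y hxy
    refine Set.Finite.of_finite_image (f := Subtype.val) ((hf x y hxy).subset ?_)
      Subtype.val_injective.injOn
    rintro _ ⟨g, ⟨hg1, hg2⟩, rfl⟩
    exact ⟨hg1, hg2, MulAction.mem_stabilizer_iff.1 g.2⟩) β hβ
  let φ : MulAction.stabilizer (MulAction.stabilizer G ω) v →*
      (MulAction.stabilizer G v ⊓ MulAction.stabilizer G ω : Subgroup G) :=
    { toFun := fun g => ⟨((g : MulAction.stabilizer G ω) : G), ⟨g.2, (g : MulAction.stabilizer G ω).2⟩⟩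
      map_one' := rfl
      map_mul' := fun a b => rfl }
  have hφ : Function.Injective φ := by
    intro a b hab
    have h3 : ((φ a : (MulAction.stabilizer G v ⊓ MulAction.stabilizer G ω : Subgroup G)) : G)
        = ((φ b : (MulAction.stabilizer G v ⊓ MulAction.stabilizer G ω : Subgroup G)) : G) := by
      rw [hab]
    exact Subtype.ext (Subtype.ext h3)
  refine ⟨v, γ.mapDomain φ, ?_, ?_⟩
  · intro h0
    apply hγ
    exact Finsupp.mapDomain_injective hφ (by rw [h0, Finsupp.mapDomain_zero])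
  · exact ((h1.trans hβ2).trans hγ2).trans (vd_kr_mapDomain_ge φ hφ γ)

/-! ### amalgamated products -/

section
variable {P : Type u} [Group P] {ι : Type v} [Nonempty ι] {S : ι → Subgroup P} {B : Subgroup P}
  [MulAction P Ω]

theorem stab_inl (g x : P) (i : ι)
    (hx : x ∈ MulAction.stabilizer P (Sum.inl ⟨i, (g : P ⧸ S i)⟩ : Vert S B)) :
    g⁻¹ * x * g ∈ S i := by
  rw [MulAction.mem_stabilizer_iff] at hx
  have h1 : (Sum.inl ⟨i, ((x * g : P) : P ⧸ S i)⟩ : Vert S B) = Sum.inl ⟨i, (g : P ⧸ S i)⟩ := hx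
  have h2 := Sum.inl_injective h1
  have h3 : ((x * g : P) : P ⧸ S i) = (g : P ⧸ S i) := by
    simpa using h2
  have h4 := QuotientGroup.eq.1 h3.symm
  rwa [← mul_assoc] at h4

theorem stab_inr (g x : P)
    (hx : x ∈ MulAction.stabilizer P (Sum.inr (g : P ⧸ B) : Vert S B)) :
    g⁻¹ * x * g ∈ B := by
  rw [MulAction.mem_stabilizer_iff] at hx
  have h1 : (Sum.inr ((x * g : P) : P ⧸ B) : Vert S B) = Sum.inr (g : P ⧸ B) := hx
  have h3 := Sum.inr_injective h1
  have h4 := QuotientGroup.eq.1 h3.symm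
  rwa [← mul_assoc] at h4

/-- Every subgroup of a vertex stabiliser embeds in some `S i`. -/
theorem stab_embed (h : IsAmalgam S B) (v : Vert S B) :
    ∃ (i : ι) (g : P), ∀ x ∈ MulAction.stabilizer P v, g⁻¹ * x * g ∈ S i := by
  rcases v with ⟨i, a⟩ | a
  · induction a using QuotientGroup.induction_on with
    | H g => exact ⟨i, g, fun x hx => stab_inl g x i hx⟩
  · induction a using QuotientGroup.induction_on with
    | H g =>
      obtain ⟨i⟩ := ‹Nonempty ι›
      exact ⟨i, g, fun x hx => h.le i (stab_inr g x hx)⟩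

/-- **Amalgamated products.** -/
theorem amalgam (h : IsAmalgam S B) (hmono : ∀ (g : P) (x y : Ω), x ≤ y → g • x ≤ g • y) (ω : Ω)
    (hf : ∀ p : P, {b : P | b ∈ B ∧ (p * b * p⁻¹) • ω = ω}.Finite)
    (α : P →₀ ℂ) (hα : α ≠ 0) :
    ∃ i : ι, ∃ β : S i →₀ ℂ, β ≠ 0 ∧ vd (kr α) ≤ vd (kr β) := by
  classical
  obtain ⟨v, γ, hγ, hγ2⟩ := main_order (treeAction h) hmono ω (by
    have key : ∀ (g : P), {x : P | x ∈ MulAction.stabilizer P (Sum.inr (g : P ⧸ B) : Vert S B) ∧
        x • ω = ω}.Finite := by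
      intro g
      refine ((hf g).image (fun b => g * b * g⁻¹)).subset ?_
      rintro x ⟨hx1, hx2⟩
      refine ⟨g⁻¹ * x * g, ⟨stab_inr g x hx1, ?_⟩, by group⟩
      have : g * (g⁻¹ * x * g) * g⁻¹ = x := by group
      rw [this]; exact hx2
    intro x y hxy
    rcases x with x | x
    · rcases y with y | y
      · exact absurd hxy (not_adj_inl_inl h.le _ _)
      · induction y using QuotientGroup.induction_on with
        | H g =>
          refine (key g).subset ?_
          rintro z ⟨_, hz2, hz3⟩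
          exact ⟨MulAction.mem_stabilizer_iff.2 hz2, hz3⟩
    · induction x using QuotientGroup.induction_on with
      | H g =>
        refine (key g).subset ?_
        rintro z ⟨hz1, _, hz3⟩
        exact ⟨MulAction.mem_stabilizer_iff.2 hz1, hz3⟩) α hα
  obtain ⟨i, g, hi⟩ := stab_embed h v
  let φ : (MulAction.stabilizer P v ⊓ MulAction.stabilizer P ω : Subgroup P) →* S i :=
    { toFun := fun x => ⟨g⁻¹ * (x : P) * g, hi x x.2.1⟩
      map_one' := by ext; simp
      map_mul' := fun a b => by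
        ext
        simp only [Subgroup.coe_mul]
        group }
  have hφ : Function.Injective φ := by
    intro a b hab
    have h3 : g⁻¹ * (a : P) * g = g⁻¹ * (b : P) * g := congrArg Subtype.val hab
    exact Subtype.ext (mul_left_cancel (mul_right_cancel h3))
  refine ⟨i, γ.mapDomain φ, ?_, ?_⟩
  · intro h0
    apply hγ
    exact Finsupp.mapDomain_injective hφ (by rw [h0, Finsupp.mapDomain_zero])
  · exact hγ2.trans (vd_kr_mapDomain_ge φ hφ γ)

end

end

end Pool.Agent.H61.AZ
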