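import Pool.Agent.H61.AZ.Order

set_option autoImplicit false
set_option linter.unusedSectionVars false

/-! Free products and amalgamated products of Mathlib are amalgams. -/

namespace Pool.Agent.H61.AZ

open Monoid

universe u v w

section
variable {ι : Type v} {M : ι → Type w} [∀ i, Group (M i)]

theorem exists_word' {C : Type*} [Group C] {S' : ι → Subgroup C} {B' : Subgroup C}
    (of' : ∀ i, M i →* C) (hS : ∀ i, S' i = (of' i).range) (hB1 : (1 : C) ∈ B') :
    ∀ l : List (ι × C), Red S' B' l → ∃ w : CoprodI.Word M,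
      w.toList.map (fun x => (x.1, of' x.1 x.2)) = l := by
  intro l
  induction l with
  | nil => intro _; exact ⟨CoprodI.Word.empty, rfl⟩
  | cons a l ih =>
    intro hl
    rw [Red, List.isChain_cons] at hl
    obtain ⟨w, hw⟩ := ih ⟨fun x hx => hl.1 x (List.mem_cons_of_mem _ hx), hl.2.2⟩
    obtain ⟨ha1, ha2⟩ := hl.1 a List.mem_cons_self
    rw [hS] at ha1
    obtain ⟨m, hm⟩ := ha1
    have hm1 : m ≠ 1 := by
      intro h0
      apply ha2
      rw [← hm, h0, map_one]
      exact hB1
    have hfst : w.fstIdx ≠ some a.1 := by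
      rw [CoprodI.Word.fstIdx_ne_iff]
      intro x hx
      have h1 : (x.1, of' x.1 x.2) ∈ l.head? := by
        rw [← hw, List.head?_map]
        rw [Option.mem_def] at hx ⊢
        rw [hx]; rfl
      exact hl.2.1 _ h1
    refine ⟨CoprodI.Word.cons m w hfst hm1, ?_⟩
    change (a.1, of' a.1 m) :: w.toList.map (fun x => (x.1, of' x.1 x.2)) = a :: l
    rw [hw, hm]

theorem coprodI_isAmalgam : IsAmalgam (P := CoprodI M)
    (fun i => (CoprodI.of : M i →* CoprodI M).range) ⊥ where
  le := fun i => bot_le
  gen := by
    have h := CoprodI.range_eq_iSup (f := fun i => (CoprodI.of : M i →* CoprodI M))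
    rw [← h, CoprodI.lift_of', MonoidHom.range_eq_top]
    exact Function.surjective_id
  red := by
    classical
    intro l hl hprod
    obtain ⟨w, hw⟩ := exists_word' (fun i => (CoprodI.of : M i →* CoprodI M)) (fun i => rfl)
      (Subgroup.mem_bot.2 rfl) l hl
    rw [Subgroup.mem_bot] at hprod
    have h1 : w.prod = 1 := by
      rw [← hprod, ← hw, List.map_map]
      rfl
    have h2 : w = CoprodI.Word.empty := by
      apply CoprodI.Word.equiv.symm.injective
      change w.prod = CoprodI.Word.empty.prod
      rw [h1, CoprodI.Word.prod_empty]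
    rw [← hw, h2]
    rfl

variable {H : Type*} [Group H] {φ : ∀ i, H →* M i}

theorem pushoutI_isAmalgam [Nonempty ι] (hφ : ∀ i, Function.Injective (φ i)) : IsAmalgam (P := PushoutI φ)
    (fun i => (PushoutI.of i : M i →* PushoutI φ).range) (PushoutI.base φ).range where
  le := by
    rintro i _ ⟨x, rfl⟩
    exact ⟨φ i x, PushoutI.of_apply_eq_base φ i x⟩
  gen := by
    rw [eq_top_iff]
    rintro x -
    induction x using PushoutI.induction_on with
    | of i g => exact Subgroup.mem_iSup_of_mem i ⟨g, rfl⟩
    | base h =>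
      obtain ⟨i⟩ := ‹Nonempty ι›
      exact Subgroup.mem_iSup_of_mem i ⟨φ i h, PushoutI.of_apply_eq_base φ i h⟩
    | mul x y hx hy => exact Subgroup.mul_mem _ hx hy
  red := by
    classical
    intro l hl hprod
    obtain ⟨w, hw⟩ := exists_word' (fun i => (PushoutI.of i : M i →* PushoutI φ)) (fun i => rfl)
      (Subgroup.one_mem _) l hl
    have h0 : PushoutI.Reduced φ w := by
      intro g hg hcon
      obtain ⟨x, hx⟩ := hcon
      have h1 : (g.1, (PushoutI.of g.1 : M g.1 →* PushoutI φ) g.2) ∈ l := by
        rw [← hw]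
        exact List.mem_map_of_mem hg
      apply (hl.1 _ h1).2
      refine ⟨x, ?_⟩
      change _ = (PushoutI.of g.1 : M g.1 →* PushoutI φ) g.2
      rw [← hx, PushoutI.of_apply_eq_base]
    have h1 : PushoutI.ofCoprodI w.prod ∈ (PushoutI.base φ).range := by
      have : (PushoutI.ofCoprodI w.prod : PushoutI φ) = (l.map Prod.snd).prod := by
        rw [← hw, List.map_map, CoprodI.Word.prod, map_list_prod, List.map_map]
        congr 1
      rw [this]; exact hprod
    have h2 := PushoutI.Reduced.eq_empty_of_mem_range hφ h0 h1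
    rw [← hw, h2]
    rfl

end

end Pool.Agent.H61.AZ
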