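import Pool.Agent.H61.AZ.Products

set_option autoImplicit false
set_option linter.unusedSectionVars false

open scoped InnerProductSpace InnerProduct ENNReal

/-! A free product of `m` groups with elements of infinite order is not generated by fewer than
`m` elements. -/

namespace Pool.Agent.H61.AZ

open Pool.Agent.W649.ZL Pool.Agent.Y74.OC Monoid

universe u v w

section
variable {Q : Type u} [Group Q]

theorem Ltr_inv_Ltr (q : Q) (x : EE Q Unit) : Ltr q⁻¹ (Ltr q x) = x := by
  rw [← ContinuousLinearMap.comp_apply, ← Ltr_mul, inv_mul_cancel, Ltr_one]; rfl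

theorem Ltr_Ltr_inv (q : Q) (x : EE Q Unit) : Ltr q (Ltr q⁻¹ x) = x := by
  rw [← ContinuousLinearMap.comp_apply, ← Ltr_mul, mul_inv_cancel, Ltr_one]; rfl

/-- the affine action with fixed point `-m` -/
noncomputable def aff (m : EE Q Unit) : Q →* Equiv.Perm (EE Q Unit) where
  toFun q :=
    { toFun := fun x => Ltr q (x + m) - m
      invFun := fun x => Ltr q⁻¹ (x + m) - m
      left_inv := fun x => by
        change Ltr q⁻¹ (Ltr q (x + m) - m + m) - m = x
        rw [sub_add_cancel, Ltr_inv_Ltr, add_sub_cancel_right]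
      right_inv := fun x => by
        change Ltr q (Ltr q⁻¹ (x + m) - m + m) - m = x
        rw [sub_add_cancel, Ltr_Ltr_inv, add_sub_cancel_right] }
  map_one' := by
    ext x : 1
    change Ltr 1 (x + m) - m = x
    rw [Ltr_one]
    change x + m - m = x
    rw [add_sub_cancel_right]
  map_mul' q r := by
    ext x : 1
    change Ltr (q * r) (x + m) - m = Ltr q (Ltr r (x + m) - m + m) - m
    rw [sub_add_cancel, Ltr_mul, ContinuousLinearMap.comp_apply]

theorem aff_apply (m : EE Q Unit) (q : Q) (x : EE Q Unit) : aff m q x = Ltr q (x + m) - m := rfl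

end

section
variable {ι : Type v} {M : ι → Type w} [∀ i, Group (M i)]

/-- the coordinate of a family -/
noncomputable def crd (i : ι) : EE (CoprodI M) ι →L[ℂ] EE (CoprodI M) Unit := elem 1 () i

/-- the affine action of the free product with given translation vectors -/
noncomputable def rho (f : EE (CoprodI M) ι) : CoprodI M →* Equiv.Perm (EE (CoprodI M) Unit) :=
  CoprodI.lift fun i => (aff (crd i f)).comp (CoprodI.of : M i →* CoprodI M)

theorem rho_of (f : EE (CoprodI M) ι) (i : ι) (b : M i) (x : EE (CoprodI M) Unit) :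
    rho f (CoprodI.of b) x = Ltr (CoprodI.of b) (x + crd i f) - crd i f := by
  unfold rho
  rw [CoprodI.lift_of]
  rfl

theorem rho_affine (f : EE (CoprodI M) ι) (q : CoprodI M) : ∀ x : EE (CoprodI M) Unit,
    rho f q x = Ltr q x + rho f q 0 := by
  induction q using CoprodI.induction_on with
  | one =>
    intro x
    rw [map_one, Ltr_one]
    change x = x + 0
    rw [add_zero]
  | of i b =>
    intro x
    rw [rho_of, rho_of, map_add, zero_add, add_sub_assoc]
  | mul q r hq hr =>
    intro x
    rw [map_mul]
    change rho f q (rho f r x) = Ltr (q * r) x + rho f q (rho f r 0)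
    rw [hq (rho f r x), hr x, hq (rho f r 0), Ltr_mul, map_add, ContinuousLinearMap.comp_apply,
      add_assoc]

theorem exists_op (q : CoprodI M) : ∃ Ψ : EE (CoprodI M) ι →L[ℂ] EE (CoprodI M) Unit,
    Eqv Ψ ∧ ∀ f, Ψ f = rho f q 0 := by
  induction q using CoprodI.induction_on with
  | one =>
    refine ⟨0, fun k f => ?_, fun f => ?_⟩
    · change (0 : EE (CoprodI M) Unit) = tr k 0
      rw [tr_zero]
    · rw [map_one]; rfl
  | of i b =>
    refine ⟨elem (CoprodI.of b) () i - elem 1 () i, fun k f => ?_, fun f => ?_⟩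
    · change elem (CoprodI.of b) () i (tr k f) - elem 1 () i (tr k f)
        = tr k (elem (CoprodI.of b) () i f - elem 1 () i f)
      rw [elem_eqv, elem_eqv]
      ext x; rfl
    · rw [rho_of, zero_add]
      change elem (CoprodI.of b) () i f - elem 1 () i f = _
      congr 1
      ext ⟨x, ⟨⟩⟩
      rw [Ltr_apply, crd, elem_apply, elem_apply]
      simp
  | mul q r hq hr =>
    obtain ⟨Ψ, h1, h2⟩ := hq
    obtain ⟨Ψ', h3, h4⟩ := hr
    refine ⟨Ψ + (Ltr q).comp Ψ', fun k f => ?_, fun f => ?_⟩
    · change Ψ (tr k f) + Ltr q (Ψ' (tr k f)) = tr k (Ψ f + Ltr q (Ψ' f))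
      rw [h1, h3, elem_eqv, tr_add]
    · change Ψ f + Ltr q (Ψ' f) = rho f (q * r) 0
      rw [map_mul, h2, h4]
      change _ = rho f q (rho f r 0)
      rw [rho_affine f q (rho f r 0), add_comm]

/-- The number of factors is at most the number of generators. -/
theorem card_le_of_generators [Fintype ι] (hM : ∀ i, ∃ b : M i, ¬ IsOfFinOrder b)
    (S : Finset (CoprodI M)) (hS : Subgroup.closure (S : Set (CoprodI M)) = ⊤) :
    Fintype.card ι ≤ S.card := by
  classical
  choose Ψ hΨ1 hΨ2 using fun q : CoprodI M => exists_op (M := M) q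
  obtain ⟨K, -, -, hK, hKd⟩ := lower Ψ hΨ1 1 S (by
    intro p _
    refine (vd_mono le_top).trans ?_
    rw [vd_top]; simp)
  have hK0 : K = ⊥ := by
    rw [eq_bot_iff]
    intro f hf
    have h1 := (hK f).1 hf
    have h2 : ∀ q : CoprodI M, rho f q 0 = 0 := by
      intro q
      have hq : q ∈ Subgroup.closure (S : Set (CoprodI M)) := by rw [hS]; trivial
      induction hq using Subgroup.closure_induction with
      | mem x hx => rw [← hΨ2]; exact h1 x hx
      | one => rw [map_one]; rfl
      | mul x y _ _ hx hy =>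
        rw [map_mul]
        change rho f x (rho f y 0) = 0
        rw [hy, hx]
      | inv x _ hx =>
        have h3 : rho f x⁻¹ (rho f x 0) = 0 := by
          change (rho f x⁻¹ * rho f x) 0 = 0
          rw [← map_mul, inv_mul_cancel, map_one]; rfl
        rwa [hx] at h3
    rw [Submodule.mem_bot]
    ext ⟨x, i⟩
    obtain ⟨b, hb⟩ := hM i
    have hb' : ¬ IsOfFinOrder (CoprodI.of b : CoprodI M) := by
      intro h3
      apply hb
      rw [isOfFinOrder_iff_pow_eq_one] at h3 ⊢
      obtain ⟨n, hn, hn2⟩ := h3
      refine ⟨n, hn, CoprodI.of_injective i ?_⟩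
      rw [map_pow, map_one]; exact hn2
    have h3 := Ltr_sub_injective (CoprodI.of b : CoprodI M) hb' 1
    have h4 : crd i f = 0 := by
      apply h3
      rw [map_zero]
      have h5 := h2 (CoprodI.of b)
      rw [rho_of, zero_add] at h5
      change Ltr (CoprodI.of b) (crd i f) - (1 : ℂ) • (crd i f) = 0
      rw [one_smul]
      exact h5
    have h5 := congrArg (fun F : EE (CoprodI M) Unit => F (x, ())) h4
    have h6 : crd i f (x, ()) = 0 := h5
    rw [crd, elem_apply] at h6
    simpa using h6
  rw [hK0, vd_bot] at hKd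
  have h7 : (Fintype.card ι : ℝ) ≤ S.card := by linarith
  exact_mod_cast h7

end

end Pool.Agent.H61.AZ
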