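import Pool.Agent.H61.AZ.Rank

set_option autoImplicit false
set_option linter.unusedSectionVars false

open scoped InnerProductSpace InnerProduct ENNReal

/-! Reduction to freely indecomposable groups which act trivially on totally ordered sets. -/

namespace Pool.Agent.H61.AZ

open Pool.Agent.W649.ZL Pool.Agent.Y74.OC Monoid

universe u v w

/-- Whenever `B` is the free product of two subgroups, one of them is trivial. -/
def FreelyIndecomposable (B : Type u) [Group B] : Prop :=
  ∀ S : Bool → Subgroup B,
    Function.Bijective (CoprodI.lift (fun i => (S i).subtype) : CoprodI (fun i => S i) →* B) →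
    S true = ⊥ ∨ S false = ⊥

/-- Every action of `B` by order preserving maps on a totally ordered set is trivial. -/
def OrderTrivial (B : Type u) [Group B] : Prop :=
  ∀ (Ω : Type u) [LinearOrder Ω] [MulAction B Ω],
    (∀ (g : B) (x y : Ω), x ≤ y → g • x ≤ g • y) → ∀ (g : B) (ω : Ω), g • ω = ω

/-- no nontrivial element of finite order -/
def TF (G : Type u) [Group G] : Prop := ∀ g : G, ∀ n : ℕ, 0 < n → g ^ n = 1 → g = 1

theorem TF.of_injective {G : Type u} {H : Type v} [Group G] [Group H] (hG : TF G) (f : H →* G)
    (hf : Function.Injective f) : TF H := by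
  intro g n hn hg
  apply hf
  rw [map_one]
  exact hG (f g) n hn (by rw [← map_pow, hg, map_one])

theorem OrderTrivial.of_surjective {G : Type u} {H : Type u} [Group G] [Group H]
    (hG : OrderTrivial G) (f : G →* H) (hf : Function.Surjective f) : OrderTrivial H := by
  intro Ω _ _ hmono g ω
  let _ : MulAction G Ω := MulAction.compHom Ω f
  obtain ⟨x, rfl⟩ := hf g
  exact hG Ω (fun g x y hxy => hmono (f g) x y hxy) x ω

/-! ### the universal property of a free product of two groups -/

section
variable {H A B : Type u} [Group H] [Group A] [Group B]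

/-- `H` is the free product of `A` and `B`, by the maps `a` and `b`. -/
structure IsCop (a : A →* H) (b : B →* H) : Prop where
  lift : ∀ (C : Type u) [Group C] (f : A →* C) (g : B →* C),
    ∃ h : H →* C, h.comp a = f ∧ h.comp b = g
  ext : ∀ (C : Type u) [Group C] (h h' : H →* C), h.comp a = h'.comp a → h.comp b = h'.comp b →
    h = h'

theorem IsCop.symm {a : A →* H} {b : B →* H} (h : IsCop a b) : IsCop b a where
  lift C _ f g := by
    obtain ⟨k, h1, h2⟩ := h.lift C g f
    exact ⟨k, h2, h1⟩
  ext C _ k k' h1 h2 := h.ext C k k' h2 h1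

/-- the retraction -/
theorem IsCop.retract {a : A →* H} {b : B →* H} (h : IsCop a b) :
    ∃ r : H →* A, ∀ x, r (a x) = x := by
  obtain ⟨r, h1, -⟩ := h.lift A (MonoidHom.id A) 1
  exact ⟨r, fun x => DFunLike.congr_fun h1 x⟩

theorem IsCop.injective {a : A →* H} {b : B →* H} (h : IsCop a b) : Function.Injective a := by
  obtain ⟨r, hr⟩ := h.retract
  exact Function.LeftInverse.injective hr

/-- the family with one more member -/
def optFam {ι : Type} (B : Type u) (M : ι → Type u) : Option ι → Type u
  | none => B
  | some i => M i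

instance instOptFam {ι : Type} (B : Type u) (M : ι → Type u) [Group B] [∀ i, Group (M i)] :
    ∀ o, Group (optFam B M o)
  | none => inferInstanceAs (Group B)
  | some i => inferInstanceAs (Group (M i))

theorem IsCop.refine {a : A →* H} {b : B →* H} (h : IsCop a b) {ι : Type} {M : ι → Type u}
    [∀ i, Group (M i)] (eA : CoprodI M ≃* A) : Nonempty (CoprodI (optFam B M) ≃* H) := by
  let cN : B →* CoprodI (optFam B M) := (CoprodI.of : optFam B M none →* CoprodI (optFam B M))
  let cS : ∀ i, M i →* CoprodI (optFam B M) := fun i =>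
    (CoprodI.of : optFam B M (some i) →* CoprodI (optFam B M))
  let ff : ∀ o, optFam B M o →* H := fun o =>
    match o with
    | none => b
    | some i => a.comp (eA.toMonoidHom.comp (CoprodI.of : M i →* CoprodI M))
  let F : CoprodI (optFam B M) →* H := CoprodI.lift ff
  let g0 : CoprodI M →* CoprodI (optFam B M) := CoprodI.lift cS
  have hFN : ∀ y : B, F (cN y) = b y := fun y => CoprodI.lift_of ff (i := none) y
  have hFS : ∀ (i : ι) (m : M i), F (cS i m) = a (eA (CoprodI.of m)) :=
    fun i m => CoprodI.lift_of ff (i := some i) m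
  have hg0 : ∀ (i : ι) (m : M i), g0 (CoprodI.of m) = cS i m := fun i m => CoprodI.lift_of cS m
  have hF0 : F.comp g0 = a.comp eA.toMonoidHom := by
    apply CoprodI.ext_hom
    intro i
    ext m
    change F (g0 (CoprodI.of m)) = a (eA (CoprodI.of m))
    rw [hg0, hFS]
  obtain ⟨k, hk1, hk2⟩ := h.lift _ (g0.comp eA.symm.toMonoidHom) cN
  have hk1' : ∀ x : A, k (a x) = g0 (eA.symm x) := fun x => DFunLike.congr_fun hk1 x
  have hk2' : ∀ x : B, k (b x) = cN x := fun x => DFunLike.congr_fun hk2 x
  have h1 : F.comp k = MonoidHom.id H := by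
    apply h.ext
    · ext x
      change F (k (a x)) = a x
      rw [hk1']
      have := DFunLike.congr_fun hF0 (eA.symm x)
      change F (g0 (eA.symm x)) = a (eA (eA.symm x)) at this
      rw [this, MulEquiv.apply_symm_apply]
    · ext x
      change F (k (b x)) = b x
      rw [hk2', hFN]
  have h2 : k.comp F = MonoidHom.id _ := by
    apply CoprodI.ext_hom
    intro o
    cases o with
    | none =>
      refine MonoidHom.ext fun (y : B) => ?_
      change k (F (cN y)) = cN y
      rw [hFN, hk2']
    | some i =>
      refine MonoidHom.ext fun (m : M i) => ?_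
      change k (F (cS i m)) = cS i m
      rw [hFS, hk1', MulEquiv.symm_apply_apply, hg0]
  exact ⟨MonoidHom.toMulEquiv F k h2 h1⟩

end

section
variable {H : Type u} [Group H]

theorem isCop_of_bijective (S : Bool → Subgroup H)
    (hS : Function.Bijective
      (CoprodI.lift (fun i => (S i).subtype) : CoprodI (fun i => S i) →* H)) :
    IsCop (S true).subtype (S false).subtype := by
  set e : CoprodI (fun i => S i) ≃* H := MulEquiv.ofBijective _ hS with he
  have he1 : ∀ (i : Bool) (x : S i), e (CoprodI.of x) = x := fun i x => by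
    change CoprodI.lift (fun i => (S i).subtype) (CoprodI.of x) = x
    rw [CoprodI.lift_of]; rfl
  have he2 : ∀ (i : Bool) (x : S i), e.symm (x : H) = (CoprodI.of (M := fun i => S i) x) :=
    fun i x => by
    rw [← he1 i x, MulEquiv.symm_apply_apply]
  constructor
  · intro C _ f g
    let ff : ∀ i, S i →* C := fun i => match i with
      | true => f
      | false => g
    refine ⟨(CoprodI.lift ff).comp e.symm.toMonoidHom, ?_, ?_⟩
    · ext x
      change CoprodI.lift ff (e.symm (x : H)) = f x
      rw [he2 true x, CoprodI.lift_of]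
    · ext x
      change CoprodI.lift ff (e.symm (x : H)) = g x
      rw [he2 false x, CoprodI.lift_of]
  · intro C _ h h' h1 h2
    have h3 : h.comp e.toMonoidHom = h'.comp e.toMonoidHom := by
      apply CoprodI.ext_hom
      intro i
      ext x
      change h (e (CoprodI.of x)) = h' (e (CoprodI.of x))
      rw [he1]
      cases i with
      | true => exact DFunLike.congr_fun h1 x
      | false => exact DFunLike.congr_fun h2 x
    ext y
    have h4 := DFunLike.congr_fun h3 (e.symm y)
    change h (e (e.symm y)) = h' (e (e.symm y)) at h4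
    rwa [MulEquiv.apply_symm_apply] at h4

/-- the kernel inequality for a group which is the free product of two subgroups -/
theorem bool_kernel (S : Bool → Subgroup H)
    (hS : Function.Bijective
      (CoprodI.lift (fun i => (S i).subtype) : CoprodI (fun i => S i) →* H))
    (β : H →₀ ℂ) (hβ : β ≠ 0) :
    ∃ (i : Bool) (γ : S i →₀ ℂ), γ ≠ 0 ∧ vd (kr β) ≤ vd (kr γ) := by
  set e : CoprodI (fun i => S i) ≃* H := MulEquiv.ofBijective _ hS with he
  have hinj : Function.Injective (e.symm.toMonoidHom : H →* CoprodI (fun i => S i)) :=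
    e.symm.injective
  have h1 := vd_kr_mapDomain_ge (e.symm.toMonoidHom : H →* CoprodI (fun i => S i)) hinj β
  have h2 : β.mapDomain (e.symm.toMonoidHom : H →* CoprodI (fun i => S i)) ≠ 0 := by
    intro h0
    apply hβ
    exact Finsupp.mapDomain_injective hinj (by rw [h0, Finsupp.mapDomain_zero])
  obtain ⟨i, γ, h3, h4⟩ := amalgam (Ω := Unit) (coprodI_isAmalgam (M := fun i => S i))
    (fun g x y _ => le_rfl) () (fun p => by
      refine Set.Finite.subset (Set.finite_singleton 1) ?_
      rintro b ⟨hb, _⟩
      exact Subgroup.mem_bot.1 hb) _ h2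
  have hof := CoprodI.of_injective (M := fun i => S i) i
  have hinj2 : Function.Injective ((MonoidHom.ofInjective hof).symm.toMonoidHom) :=
    (MonoidHom.ofInjective hof).symm.injective
  refine ⟨i, γ.mapDomain (MonoidHom.ofInjective hof).symm.toMonoidHom, ?_, ?_⟩
  · intro h0
    apply h3
    exact Finsupp.mapDomain_injective hinj2 (by rw [h0, Finsupp.mapDomain_zero])
  · exact (h1.trans h4).trans (vd_kr_mapDomain_ge _ hinj2 γ)

/-- Every finitely generated torsion-free group: reduction to freely indecomposable groups. -/
theorem split_aux : ∀ (k : ℕ) (H : Type u) [Group H], Group.FG H → TF H → OrderTrivial H →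
    (∀ (ι : Type) [Fintype ι] (M : ι → Type u) [∀ i, Group (M i)], (∀ i, Nontrivial (M i)) →
      Nonempty (CoprodI M ≃* H) → Fintype.card ι ≤ k) →
    ∀ β : H →₀ ℂ, β ≠ 0 → ∃ (B : Type u) (_ : Group B) (f : B →* H), Function.Injective f ∧
      Group.FG B ∧ FreelyIndecomposable B ∧ OrderTrivial B ∧
      ∃ γ : B →₀ ℂ, γ ≠ 0 ∧ vd (kr β) ≤ vd (kr γ) := by
  intro k
  induction k with
  | zero =>
    intro H _ hfg _ hot hk β hβ
    -- the group is trivial, otherwise there is a family with one member
    refine ⟨H, inferInstance, MonoidHom.id H, Function.injective_id, hfg, ?_, hot, β, hβ, le_rfl⟩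
    intro S hS
    by_contra hcon
    rw [not_or] at hcon
    have h1 := hk Bool (fun i => S i) (fun i => by
      rw [Subgroup.nontrivial_iff_ne_bot]
      cases i with
      | true => exact hcon.1
      | false => exact hcon.2) ⟨MulEquiv.ofBijective _ hS⟩
    rw [Fintype.card_bool] at h1
    omega
  | succ k ih =>
    intro H _ hfg htf hot hk β hβ
    by_cases hind : FreelyIndecomposable H
    · exact ⟨H, inferInstance, MonoidHom.id H, Function.injective_id, hfg, hind, hot, β, hβ,
        le_rfl⟩
    · unfold FreelyIndecomposable at hind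
      push Not at hind
      obtain ⟨S, hS, hS1, hS2⟩ := hind
      have hcop := isCop_of_bijective S hS
      obtain ⟨i, γ, hγ, hγ2⟩ := bool_kernel S hS β hβ
      -- apply the induction hypothesis to the factor
      have key : ∀ (i j : Bool), IsCop (S i).subtype (S j).subtype → S j ≠ ⊥ →
          ∀ γ : S i →₀ ℂ, γ ≠ 0 → vd (kr β) ≤ vd (kr γ) →
          ∃ (B : Type u) (_ : Group B) (f : B →* H), Function.Injective f ∧
            Group.FG B ∧ FreelyIndecomposable B ∧ OrderTrivial B ∧
            ∃ γ : B →₀ ℂ, γ ≠ 0 ∧ vd (kr β) ≤ vd (kr γ) := by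
        intro i j hij hj γ hγ hγ2
        obtain ⟨r, hr⟩ := hij.retract
        have hrs : Function.Surjective r := fun x => ⟨_, hr x⟩
        obtain ⟨B, iB, f, h1, h2, h3, h4, δ, h5, h6⟩ := ih (S i) (Group.fg_of_surjective hrs)
          (htf.of_injective _ (S i).subtype_injective) (hot.of_surjective r hrs) (by
            intro ι _ M _ hM hiso
            obtain ⟨eA⟩ := hiso
            have h1 := hk (Option ι) (optFam (S j) M) (by
              intro o
              cases o with
              | none =>
                change Nontrivial (S j)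
                rw [Subgroup.nontrivial_iff_ne_bot]
                exact hj
              | some i => exact hM i) (hij.refine eA)
            rw [Fintype.card_option] at h1
            omega) γ hγ
        exact ⟨B, iB, (S i).subtype.comp f, (S i).subtype_injective.comp h1, h2, h3, h4, δ, h5,
          hγ2.trans h6⟩
      cases i with
      | true => exact key true false hcop hS2 γ hγ hγ2
      | false => exact key false true hcop.symm hS1 γ hγ hγ2

/-- Reduction to freely indecomposable groups. -/
theorem split (hfg : Group.FG H) (htf : TF H) (hot : OrderTrivial H) (β : H →₀ ℂ) (hβ : β ≠ 0) :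
    ∃ (B : Type u) (_ : Group B) (f : B →* H), Function.Injective f ∧
      Group.FG B ∧ FreelyIndecomposable B ∧ OrderTrivial B ∧
      ∃ γ : B →₀ ℂ, γ ≠ 0 ∧ vd (kr β) ≤ vd (kr γ) := by
  classical
  obtain ⟨S, hS⟩ := Group.fg_def.1 hfg
  refine split_aux S.card H hfg htf hot ?_ β hβ
  intro ι _ M _ hM hiso
  obtain ⟨e⟩ := hiso
  have h1 : ∀ i, ∃ b : M i, ¬ IsOfFinOrder b := by
    intro i
    obtain ⟨b, hb⟩ := exists_ne (1 : M i)
    refine ⟨b, fun hfin => hb ?_⟩
    rw [isOfFinOrder_iff_pow_eq_one] at hfin
    obtain ⟨n, hn, hn2⟩ := hfin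
    have htf' : TF (M i) := htf.of_injective (e.toMonoidHom.comp (CoprodI.of : M i →* CoprodI M))
      (e.injective.comp (CoprodI.of_injective i))
    exact htf' b n hn hn2
  have h2 := card_le_of_generators h1 (S.image e.symm) (by
    have h3 := MonoidHom.map_closure e.symm.toMonoidHom (S : Set H)
    rw [hS] at h3
    rw [Finset.coe_image]
    have h4 : (e.symm.toMonoidHom : H → CoprodI M) = e.symm := rfl
    rw [h4] at h3
    rw [← h3, ← MonoidHom.range_eq_map, MonoidHom.range_eq_top]
    exact e.symm.surjective)
  exact h2.trans Finset.card_image_le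

/-! ### reduction to groups that act trivially on totally ordered sets -/

/-- an element supported on the left coset `t H` -/
theorem restrict_at (η : H →₀ ℂ) (K : Subgroup H) (t : H) (hs : ∀ s ∈ η.support, t⁻¹ * s ∈ K)
    (β : K →₀ ℂ) (hβa : ∀ k : K, β k = η (t * k)) : vd (kr η) ≤ vd (kr β) := by
  classical
  have hinj : Function.Injective (fun k : K => t * (k : H)) := by
    intro a b hab
    exact Subtype.ext (mul_left_cancel hab)
  apply vd_kr_le_of_infDist
  rw [Metric.le_infDist ⟨0, by simp⟩]
  intro f hf
  have hf' : cop η f = 0 := hf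
  have h1 : rs K f ∈ (kr β : Set (EE K Unit)) := by
    change cop β (rs K f) = 0
    ext ⟨x, ⟨⟩⟩
    have h2 := cop_apply η f (t * x)
    rw [hf'] at h2
    rw [cop_apply]
    change _ = (0 : ℂ)
    refine Eq.trans ?_ h2.symm
    have h3 : β.support.image (fun k : K => t * (k : H)) = η.support := by
      ext y
      rw [Finset.mem_image]
      constructor
      · rintro ⟨k, hk, rfl⟩
        rw [Finsupp.mem_support_iff, hβa] at hk
        exact Finsupp.mem_support_iff.2 hk
      · intro hy
        refine ⟨⟨t⁻¹ * y, hs y hy⟩, ?_, by simp⟩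
        rw [Finsupp.mem_support_iff, hβa]
        simpa using Finsupp.mem_support_iff.1 hy
    rw [← h3, Finset.sum_image (fun a _ b _ hab => hinj hab)]
    refine Finset.sum_congr rfl fun k _ => ?_
    rw [hβa, rs_apply]
    have h4 : (t * (k : H))⁻¹ * (t * (x : H)) = ((k⁻¹ * x : K) : H) := by
      push_cast
      group
    rw [h4]
  refine (Metric.infDist_le_dist_of_mem h1).trans ?_
  rw [dist_eq_norm, dist_eq_norm, ← rs_dl_sub]
  exact norm_rs_le _ _

theorem order_aux : ∀ (n : ℕ) (G : Type u) [Group G] (α : G →₀ ℂ), α.support.card = n → α ≠ 0 →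
    ∃ (B : Type u) (_ : Group B) (f : B →* G), Function.Injective f ∧
      Group.FG B ∧ OrderTrivial B ∧ ∃ γ : B →₀ ℂ, γ ≠ 0 ∧ vd (kr α) ≤ vd (kr γ) := by
  intro n
  induction n using Nat.strong_induction_on with
  | _ n ih =>
    intro G _ α hcard hα
    classical
    obtain ⟨t0, ht0⟩ := Finsupp.support_nonempty_iff.2 hα
    set K : Subgroup G := Subgroup.closure ((fun x => t0⁻¹ * x) '' (α.support : Set G)) with hK
    have hKfg : Group.FG K := by
      rw [Group.fg_iff_subgroup_fg]
      exact ⟨α.support.image (fun x => t0⁻¹ * x), by rw [Finset.coe_image]⟩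
    -- the restriction
    have hinj : Function.Injective (fun k : K => t0 * (k : G)) := by
      intro a b hab
      exact Subtype.ext (mul_left_cancel hab)
    set β : K →₀ ℂ := α.comapDomain (fun k : K => t0 * (k : G)) hinj.injOn with hβ
    have hβa : ∀ k : K, β k = α (t0 * k) := fun k => by rw [hβ, Finsupp.comapDomain_apply]
    have hmemK : ∀ t ∈ α.support, t0⁻¹ * t ∈ K := fun t ht =>
      Subgroup.subset_closure ⟨t, ht, rfl⟩
    have h3 : β.support.image (fun k : K => t0 * (k : G)) = α.support := by
      ext y
      rw [Finset.mem_image]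
      constructor
      · rintro ⟨k, hk, rfl⟩
        rw [Finsupp.mem_support_iff, hβa] at hk
        exact Finsupp.mem_support_iff.2 hk
      · intro hy
        refine ⟨⟨t0⁻¹ * y, hmemK y hy⟩, ?_, by simp⟩
        rw [Finsupp.mem_support_iff, hβa]
        simpa using Finsupp.mem_support_iff.1 hy
    have hβcard : β.support.card = n := by
      rw [← hcard, ← h3, Finset.card_image_of_injective _ hinj]
    have h1β : (1 : K) ∈ β.support := by
      rw [Finsupp.mem_support_iff, hβa, Subgroup.coe_one, mul_one]
      exact Finsupp.mem_support_iff.1 ht0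
    have hβne : β ≠ 0 := by
      intro h0
      rw [h0] at h1β
      simp at h1β
    have hαle : vd (kr α) ≤ vd (kr β) := restrict_at α K t0 hmemK β hβa
    by_cases hOT : OrderTrivial K
    · exact ⟨K, inferInstance, K.subtype, K.subtype_injective, hKfg, hOT, β, hβne, hαle⟩
    · unfold OrderTrivial at hOT
      push Not at hOT
      obtain ⟨Ω, iL, iA, hmono, k0, ω, hk0⟩ := hOT
      obtain ⟨t1, ht1, hmin⟩ := Finset.exists_min_image β.support (fun k => k • ω) ⟨1, h1β⟩
      have hlead := vd_le_of_action hmono ω t1 β hmin
      set γ := β.filter (fun t => t • ω = t1 • ω) with hγ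
      have hγne : γ ≠ 0 := by
        intro h0
        have h2 : γ t1 = β t1 := Finsupp.filter_apply_pos _ _ rfl
        rw [h0] at h2
        exact (Finsupp.mem_support_iff.1 ht1) h2.symm
      have hγcard : γ.support.card < n := by
        rw [← hβcard]
        apply Finset.card_lt_card
        rw [hγ, Finsupp.support_filter, Finset.ssubset_iff_subset_ne]
        refine ⟨Finset.filter_subset _ _, fun heq => ?_⟩
        have hall : ∀ k ∈ β.support, k • ω = t1 • ω := by
          intro k hk
          rw [← heq, Finset.mem_filter] at hk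
          exact hk.2
        have hm0 : t1 • ω = ω := by rw [← hall 1 h1β, one_smul]
        apply hk0
        have key : ∀ x : G, ∀ hx : x ∈ K, (⟨x, hx⟩ : K) • ω = ω := by
          intro x hx
          induction hx using Subgroup.closure_induction with
          | mem y hy =>
            obtain ⟨t, ht, rfl⟩ := hy
            have h5 : (⟨t0⁻¹ * t, hmemK t ht⟩ : K) ∈ β.support := by
              rw [Finsupp.mem_support_iff, hβa]
              simpa using Finsupp.mem_support_iff.1 ht
            exact (hall _ h5).trans hm0
          | one => exact one_smul _ _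
          | mul a b ha hb iha ihb =>
            have h6 : (⟨a * b, K.mul_mem ha hb⟩ : K) = (⟨a, ha⟩ : K) * ⟨b, hb⟩ := rfl
            rw [h6, mul_smul, ihb, iha]
          | inv a ha iha =>
            have h6 : (⟨a⁻¹, K.inv_mem ha⟩ : K) = (⟨a, ha⟩ : K)⁻¹ := rfl
            rw [h6, inv_smul_eq_iff, iha]
        exact key k0.1 k0.2
      obtain ⟨B, iB, f, h4, h5, h6, δ, h7, h8⟩ := ih _ hγcard K γ rfl hγne
      exact ⟨B, iB, K.subtype.comp f, K.subtype_injective.comp h4, h5, h6, δ, h7,
        (hαle.trans hlead).trans h8⟩

/-- **The reduction.** -/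
theorem reduction (G : Type u) [Group G] (htf : TF G) (α : G →₀ ℂ) (hα : α ≠ 0) :
    ∃ (B : Type u) (_ : Group B) (f : B →* G), Function.Injective f ∧
      Group.FG B ∧ FreelyIndecomposable B ∧ OrderTrivial B ∧
      ∃ γ : B →₀ ℂ, γ ≠ 0 ∧ vd (kr α) ≤ vd (kr γ) := by
  obtain ⟨K, iK, f, h1, h2, h3, β, h4, h5⟩ := order_aux _ G α rfl hα
  obtain ⟨B, iB, g, h6, h7, h8, h9, γ, h10, h11⟩ := split h2 (htf.of_injective f h1) h3 β h4
  exact ⟨B, iB, f.comp g, h1.comp h6, h7, h8, h9, γ, h10, h5.trans h11⟩

end

end Pool.Agent.H61.AZ
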