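import Pool.Agent.H61.AZ.Ann

set_option autoImplicit false
set_option linter.unusedSectionVars false

open scoped InnerProductSpace InnerProduct ENNReal

/-! Passing between a group and subgroups. -/

namespace Pool.Agent.H61.AZ

open Pool.Agent.W649.ZL Pool.Agent.Y74.OC

universe u v

section
variable {G : Type u} [Group G]

/-- the kernel of left convolution -/
noncomputable abbrev kr (α : G →₀ ℂ) : Submodule ℂ (EE G Unit) :=
  LinearMap.ker (cop α : EE G Unit →ₗ[ℂ] EE G Unit)

theorem vd_kr (α : G →₀ ℂ) :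
    vd (kr α) = 1 - Metric.infDist (dl ((1 : G), ())) (kr α : Set (EE G Unit)) ^ 2 := by
  rw [vd_eq_infDist _ (ContinuousLinearMap.isClosed_ker (cop α))]
  simp

theorem vd_kr_le_of_infDist {H : Type v} [Group H] (α : G →₀ ℂ) (β : H →₀ ℂ)
    (h : Metric.infDist (dl ((1 : H), ())) (kr β : Set (EE H Unit))
      ≤ Metric.infDist (dl ((1 : G), ())) (kr α : Set (EE G Unit))) :
    vd (kr α) ≤ vd (kr β) := by
  rw [vd_kr, vd_kr]
  have h0 : 0 ≤ Metric.infDist (dl ((1 : H), ())) (kr β : Set (EE H Unit)) := Metric.infDist_nonneg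
  nlinarith

/-! ### extension by zero along an injective homomorphism -/

variable {H : Type v} [Group H] (φ : H →* G) (hφ : Function.Injective φ)

include hφ in
theorem inj_prod : Function.Injective (fun x : H × Unit => ((φ x.1 : G), x.2)) := by
  rintro ⟨a, ⟨⟩⟩ ⟨b, ⟨⟩⟩ hab
  simp only [Prod.mk.injEq, and_true] at hab
  rw [hφ hab]

include hφ in
theorem memlp_ext (F : EE H Unit) :
    Memℓp (Function.extend (fun x : H × Unit => ((φ x.1 : G), x.2)) (fun x => F x) 0) 2 := by
  rw [memlp_two_iff]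
  have h1 := (memlp_two_iff _).1 F.2
  have h2 := inj_prod φ hφ
  rw [← h2.summable_iff]
  · convert h1 using 2 with x
    simp only [Function.comp_apply]
    rw [h2.extend_apply]
  · intro x hx
    rw [Function.extend_apply' _ _ _ hx]
    simp

/-- extension by zero -/
noncomputable def ext' (F : EE H Unit) : EE G Unit := ⟨_, memlp_ext φ hφ F⟩

theorem ext'_apply (F : EE H Unit) (x : H) : ext' φ hφ F (φ x, ()) = F (x, ()) :=
  (inj_prod φ hφ).extend_apply _ _ (x, ())

theorem ext'_apply_of_notMem (F : EE H Unit) (x : G) (hx : x ∉ Set.range φ) :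
    ext' φ hφ F (x, ()) = 0 := by
  change Function.extend (fun x : H × Unit => ((φ x.1 : G), x.2)) (fun x => F x) 0 (x, ()) = 0
  rw [Function.extend_apply']
  · rfl
  · rintro ⟨⟨a, ⟨⟩⟩, ha⟩
    apply hx
    exact ⟨a, congrArg Prod.fst ha⟩

theorem ext'_sub (F F' : EE H Unit) : ext' φ hφ (F - F') = ext' φ hφ F - ext' φ hφ F' := by
  ext ⟨x, ⟨⟩⟩
  change _ = ext' φ hφ F (x, ()) - ext' φ hφ F' (x, ())
  by_cases hx : x ∈ Set.range φ
  · obtain ⟨a, rfl⟩ := hx
    rw [ext'_apply, ext'_apply, ext'_apply]; rfl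
  · rw [ext'_apply_of_notMem _ _ _ _ hx, ext'_apply_of_notMem _ _ _ _ hx,
      ext'_apply_of_notMem _ _ _ _ hx, sub_zero]

theorem norm_ext' (F : EE H Unit) : ‖ext' φ hφ F‖ = ‖F‖ := by
  have e : ‖ext' φ hφ F‖ ^ 2 = ‖F‖ ^ 2 := by
    rw [norm_sq_tsum, norm_sq_tsum]
    have h2 := inj_prod φ hφ
    rw [← h2.tsum_eq]
    · refine tsum_congr fun x => ?_
      obtain ⟨x, ⟨⟩⟩ := x
      rw [ext'_apply]
    · intro x hx
      by_contra hcon
      apply hx
      obtain ⟨x, ⟨⟩⟩ := x
      change ‖ext' φ hφ F (x, ())‖ ^ 2 = 0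
      rw [ext'_apply_of_notMem]
      · simp
      · rintro ⟨a, rfl⟩
        exact hcon ⟨(a, ()), rfl⟩
  exact (sq_eq_sq₀ (norm_nonneg _) (norm_nonneg _)).1 e

theorem ext'_dl : ext' φ hφ (dl ((1 : H), ())) = dl ((1 : G), ()) := by
  ext ⟨x, ⟨⟩⟩
  by_cases hx : x ∈ Set.range φ
  · obtain ⟨a, rfl⟩ := hx
    rw [ext'_apply]
    by_cases ha : a = 1
    · subst ha
      rw [map_one, dl_apply_self, dl_apply_self]
    · rw [dl_apply_ne, dl_apply_ne]
      · intro h
        apply ha
        apply hφ
        rw [map_one]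
        exact congrArg Prod.fst h
      · intro h
        exact ha (congrArg Prod.fst h)
  · rw [ext'_apply_of_notMem _ _ _ _ hx, dl_apply_ne]
    intro h
    apply hx
    exact ⟨1, by rw [map_one]; exact (congrArg Prod.fst h).symm⟩

include hφ in
/-- the kernel dimension does not drop along injective homomorphisms -/
theorem vd_kr_mapDomain_ge (β : H →₀ ℂ) : vd (kr β) ≤ vd (kr (β.mapDomain φ)) := by
  classical
  apply vd_kr_le_of_infDist
  rw [Metric.le_infDist ⟨0, by simp⟩]
  intro F hF
  have hF' : cop β F = 0 := hF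
  have h1 : ext' φ hφ F ∈ (kr (β.mapDomain φ) : Set (EE G Unit)) := by
    change cop (β.mapDomain φ) (ext' φ hφ F) = 0
    ext ⟨x, ⟨⟩⟩
    rw [cop_apply, Finsupp.mapDomain_support_of_injective hφ,
      Finset.sum_image (fun a _ b _ hab => hφ hab)]
    change _ = (0 : ℂ)
    by_cases hx : x ∈ Set.range φ
    · obtain ⟨a, rfl⟩ := hx
      have h2 := cop_apply β F a
      rw [hF'] at h2
      refine Eq.trans (Finset.sum_congr rfl fun t _ => ?_) h2.symm
      rw [Finsupp.mapDomain_apply hφ, ← map_inv, ← map_mul, ext'_apply]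
    · refine Finset.sum_eq_zero fun t _ => ?_
      rw [ext'_apply_of_notMem, mul_zero]
      rintro ⟨a, ha⟩
      apply hx
      exact ⟨t * a, by rw [map_mul, ha]; group⟩
  refine (Metric.infDist_le_dist_of_mem h1).trans ?_
  rw [dist_eq_norm, dist_eq_norm, ← ext'_dl φ hφ, ← ext'_sub, norm_ext']

/-! ### restriction to a subgroup -/

theorem memlp_rs (H : Subgroup G) (F : EE G Unit) :
    Memℓp (fun x : H × Unit => F ((x.1 : G), ())) 2 := by
  rw [memlp_two_iff]
  have h1 := (memlp_two_iff _).1 F.2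
  exact h1.comp_injective (inj_prod H.subtype Subtype.val_injective)

/-- restriction to a subgroup -/
noncomputable def rs (H : Subgroup G) (F : EE G Unit) : EE H Unit := ⟨_, memlp_rs H F⟩

theorem rs_apply (H : Subgroup G) (F : EE G Unit) (x : H) : rs H F (x, ()) = F ((x : G), ()) := rfl

theorem norm_rs_le (H : Subgroup G) (F : EE G Unit) : ‖rs H F‖ ≤ ‖F‖ := by
  have e : ‖rs H F‖ ^ 2 ≤ ‖F‖ ^ 2 := by
    rw [norm_sq_tsum, norm_sq_tsum]
    exact tsum_comp_le_tsum_of_inj ((memlp_two_iff _).1 F.2) (fun _ => by positivity)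
      (inj_prod H.subtype Subtype.val_injective)
  exact (sq_le_sq₀ (norm_nonneg _) (norm_nonneg _)).1 e

theorem rs_dl_sub (H : Subgroup G) (F : EE G Unit) :
    rs H (dl ((1 : G), ()) - F) = dl ((1 : H), ()) - rs H F := by
  ext ⟨x, ⟨⟩⟩
  change (dl ((1 : G), ()) : EE G Unit) ((x : G), ()) - F ((x : G), ())
    = (dl ((1 : H), ()) : EE H Unit) (x, ()) - F ((x : G), ())
  congr 1
  by_cases hx : x = 1
  · subst hx
    rw [dl_apply_self]
    exact dl_apply_self _
  · rw [dl_apply_ne, dl_apply_ne]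
    · intro h; exact hx (congrArg Prod.fst h)
    · intro h; exact hx (Subtype.ext (congrArg Prod.fst h))

/-- If the kernel of an element is closed under restriction to a subgroup `H`, then it has at most
the dimension of the kernel of some nonzero element of the group algebra of `H`. -/
theorem restrict (η : G →₀ ℂ) (hη : η ≠ 0) (H : Subgroup G)
    (h : ∀ f, cop η f = 0 → cop η (res (H : Set G) f) = 0) :
    ∃ β : H →₀ ℂ, β ≠ 0 ∧ vd (kr η) ≤ vd (kr β) := by
  classical
  obtain ⟨t, ht⟩ := Finsupp.support_nonempty_iff.2 hη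
  have hinj : Function.Injective (fun k : H => t * (k : G)) := by
    intro a b hab
    exact Subtype.ext (mul_left_cancel hab)
  set β : H →₀ ℂ := η.comapDomain (fun k : H => t * (k : G)) hinj.injOn with hβ
  have hβa : ∀ k : H, β k = η (t * k) := fun k => by rw [hβ, Finsupp.comapDomain_apply]
  refine ⟨β, ?_, ?_⟩
  · intro h0
    have h1 := hβa 1
    rw [h0, Subgroup.coe_one, mul_one] at h1
    exact (Finsupp.mem_support_iff.1 ht) h1.symm
  · apply vd_kr_le_of_infDist
    rw [Metric.le_infDist ⟨0, by simp⟩]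
    intro f hf
    have hf' : cop η f = 0 := hf
    have h1 : rs H f ∈ (kr β : Set (EE H Unit)) := by
      change cop β (rs H f) = 0
      ext ⟨x, ⟨⟩⟩
      have h2 := cop_apply η (res (H : Set G) f) (t * x)
      rw [h f hf'] at h2
      rw [cop_apply]
      change _ = (0 : ℂ)
      refine Eq.trans ?_ h2.symm
      have h3 : β.support.image (fun k : H => t * (k : G)) ⊆ η.support := by
        intro y hy
        rw [Finset.mem_image] at hy
        obtain ⟨k, hk, rfl⟩ := hy
        rw [Finsupp.mem_support_iff, hβa] at hk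
        exact Finsupp.mem_support_iff.2 hk
      rw [← Finset.sum_subset h3, Finset.sum_image (fun a _ b _ hab => hinj hab)]
      · refine Finset.sum_congr rfl fun k _ => ?_
        rw [hβa, rs_apply]
        have h4 : (t * (k : G))⁻¹ * (t * (x : G)) = ((k⁻¹ * x : H) : G) := by
          push_cast
          group
        rw [h4, res_mem _ _ _ (show (((k⁻¹ * x : H) : G), ()).1 ∈ (H : Set G) from (k⁻¹ * x : H).2)]
      · intro s hs hs2
        rw [res_notMem, mul_zero]
        intro h5
        apply hs2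
        rw [Finset.mem_image]
        have h6 : t⁻¹ * s ∈ H := by
          have h7 : t⁻¹ * s = (x : G) * (s⁻¹ * (t * (x : G)))⁻¹ := by group
          rw [h7]
          exact H.mul_mem x.2 (H.inv_mem h5)
        refine ⟨⟨t⁻¹ * s, h6⟩, ?_, by simp⟩
        rw [Finsupp.mem_support_iff, hβa]
        simpa using Finsupp.mem_support_iff.1 hs
    refine (Metric.infDist_le_dist_of_mem h1).trans ?_
    rw [dist_eq_norm, dist_eq_norm, ← rs_dl_sub]
    exact norm_rs_le _ _

end

end Pool.Agent.H61.AZ
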